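import Pool.Agent.Helper68.RK.StR

set_option autoImplicit false

open MvPolynomial

namespace Pool.Agent.Helper68.RK

open Pool.Agent.Helper44.RED Pool.Agent.Helper44.CMF

private theorem sq_cancel_ClsR {F : Type} [Field F] {a b : F} (ha : a ≠ 0) (h : IsSquare (a ^ 2 * b)) :
    IsSquare b := by
  obtain ⟨r, hr⟩ := h
  refine ⟨r / a, ?_⟩
  field_simp
  linear_combination hr

private theorem two_ne_ClsR {k : Type} [Field k] (n : ℕ) (h2 : (2 : k) ≠ 0) :
    (2 : KN n k) ≠ 0 := by
  intro h
  have h3 : (algebraMap (AN n k) (KN n k)) (C (2 : k)) = 0 := by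
    rw [map_ofNat, map_ofNat]; exact h
  have h4 : (C (2 : k) : AN n k) = 0 :=
    (map_eq_zero_iff _ (IsFractionRing.injective (AN n k) (KN n k))).1 h3
  exact h2 ((map_eq_zero_iff _ (C_injective (Fin n) k)).1 h4)

private theorem dN_ne_ClsR {n s : ℕ} {k : Type} [Field k] (p : Fin s → AN n k) (hp : Irr p)
    (r : Fin s → Bool) : dN p r ≠ 0 := by
  unfold dN
  refine Finset.prod_ne_zero_iff.2 fun j _ => ?_
  split_ifs
  · exact fun h => (hp.1 j).ne_zero (IsFractionRing.injective (AN n k) (KN n k) (by rw [h, map_zero]))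
  · exact one_ne_zero

private theorem dN_false_ClsR {n s : ℕ} {k : Type} [Field k] (p : Fin s → AN n k) :
    dN p (fun _ => false) = 1 := by simp [dN]

theorem pClsR : StIndN → StHom → StKer → StPrd → StSupR → StClsR := by
  intro hInd hHom hKer hPrd hSup k _ _ n s _ h2 p hp E hE
  have h2K : (2 : KN n k) ≠ 0 := two_ne_ClsR n h2
  have hinj : Function.Injective (rN E) := fun i j h =>
    hE.1 (IsFractionRing.injective (AN n k) (KN n k) h)
  have hne : ∀ (P : (W (rN E)).Point) (i : Fin 3), dl (rN E) i P ≠ 0 :=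
    fun P i => (hPrd (KN n k) (rN E) hinj P).1 i
  choose c0 hc0 using fun P i => hSup k n s h2 p hp E hE P i
  have hi : ∀ m1 m2 m3 m4 : Fin s → Bool,
      IsSquare (dN p m1 * dN p m2 * dN p m3 * dN p m4) ↔
        ∀ j, xor (xor (m1 j) (m2 j)) (xor (m3 j) (m4 j)) = false := fun m1 m2 m3 m4 =>
    hInd k n s p hp m1 m2 m3 m4
  have huniq : ∀ (P : (W (rN E)).Point) (i : Fin 3) (r : Fin s → Bool),
      IsSquare (dl (rN E) i P * dN p r) → c0 P i = r := by
    intro P i r hr
    funext j
    have h1 := hr.mul (hc0 P i)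
    have e : dl (rN E) i P * dN p r * (dl (rN E) i P * dN p (c0 P i)) =
        (dl (rN E) i P) ^ 2 * (dN p r * dN p (c0 P i)) := by ring
    rw [e] at h1
    have h3 := sq_cancel_ClsR (hne P i) h1
    have h4 := (hi r (c0 P i) (fun _ => false) (fun _ => false)).1
      (by rw [dN_false_ClsR, mul_one, mul_one]; exact h3) j
    revert h4
    cases r j <;> cases c0 P i j <;> simp
  have hthird : ∀ P : (W (rN E)).Point,
      IsSquare (dl (rN E) 2 P * dN p (fun j => xor (c0 P 0 j) (c0 P 1 j))) := by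
    intro P
    obtain ⟨-, hs⟩ := hPrd (KN n k) (rN E) hinj P
    rw [Fin.prod_univ_three] at hs
    have h4 : IsSquare (dN p (c0 P 0) * dN p (c0 P 1) * dN p (fun j => xor (c0 P 0 j) (c0 P 1 j)) *
        dN p (fun _ => false)) := (hi _ _ _ _).2 fun j => by
      cases c0 P 0 j <;> cases c0 P 1 j <;> rfl
    rw [dN_false_ClsR, mul_one] at h4
    have h1 := (((hc0 P 0).mul (hc0 P 1)).mul hs).mul h4
    have e : dl (rN E) 0 P * dN p (c0 P 0) * (dl (rN E) 1 P * dN p (c0 P 1)) *
        (dl (rN E) 0 P * dl (rN E) 1 P * dl (rN E) 2 P) *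
        (dN p (c0 P 0) * dN p (c0 P 1) * dN p (fun j => xor (c0 P 0 j) (c0 P 1 j))) =
        (dl (rN E) 0 P * dl (rN E) 1 P * dN p (c0 P 0) * dN p (c0 P 1)) ^ 2 *
          (dl (rN E) 2 P * dN p (fun j => xor (c0 P 0 j) (c0 P 1 j))) := by ring
    rw [e] at h1
    exact sq_cancel_ClsR (mul_ne_zero (mul_ne_zero (mul_ne_zero (hne P 0) (hne P 1))
      (dN_ne_ClsR p hp _)) (dN_ne_ClsR p hp _)) h1
  refine ⟨fun P => ![c0 P 0, c0 P 1], ?_, ?_, ?_⟩
  · intro P M
    constructor
    · intro hM
      funext i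
      fin_cases i
      · exact huniq P 0 (M 0) (hM 0)
      · exact huniq P 1 (M 1) (hM 1)
    · rintro rfl
      intro i
      fin_cases i
      · exact hc0 P 0
      · exact hc0 P 1
      · exact hthird P
  · have hadd : ∀ (P Q : (W (rN E)).Point) (i : Fin 3) (j : Fin s),
        c0 (P + Q) i j = xor (c0 P i j) (c0 Q i j) := by
      intro P Q i j
      have hs := hHom (KN n k) h2K (rN E) hinj i P Q
      have h1 := (((hc0 P i).mul (hc0 Q i)).mul (hc0 (P + Q) i)).mul hs
      have e : dl (rN E) i P * dN p (c0 P i) * (dl (rN E) i Q * dN p (c0 Q i)) *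
          (dl (rN E) i (P + Q) * dN p (c0 (P + Q) i)) *
          (dl (rN E) i P * dl (rN E) i Q * dl (rN E) i (P + Q)) =
          (dl (rN E) i P * dl (rN E) i Q * dl (rN E) i (P + Q)) ^ 2 *
            (dN p (c0 P i) * dN p (c0 Q i) * dN p (c0 (P + Q) i)) := by ring
      rw [e] at h1
      have h3 := sq_cancel_ClsR (mul_ne_zero (mul_ne_zero (hne P i) (hne Q i)) (hne (P + Q) i)) h1
      have h6 := (hi (c0 P i) (c0 Q i) (c0 (P + Q) i) (fun _ => false)).1
        (by rw [dN_false_ClsR, mul_one]; exact h3) j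
      revert h6
      cases c0 P i j <;> cases c0 Q i j <;> cases c0 (P + Q) i j <;> simp
    intro P Q i j
    fin_cases i
    · exact hadd P Q 0 j
    · exact hadd P Q 1 j
  · intro P hP
    have h0 : c0 P 0 = fun _ => false := funext fun j => hP 0 j
    have h1 : c0 P 1 = fun _ => false := funext fun j => hP 1 j
    refine hKer (KN n k) h2K (rN E) hinj P fun i => ?_
    fin_cases i
    · have := hc0 P 0
      rw [h0, dN_false_ClsR, mul_one] at this
      exact this
    · have := hc0 P 1
      rw [h1, dN_false_ClsR, mul_one] at this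
      exact this
    · have h3 := hthird P
      have e : (fun j => xor (c0 P 0 j) (c0 P 1 j)) = fun _ => false := by
        funext j
        rw [h0, h1]
        rfl
      rw [e, dN_false_ClsR, mul_one] at h3
      exact h3

end Pool.Agent.Helper68.RK
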