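import Pool.Agent.Helper68.RK.StR

/-!
# Project RK, module CovG: the 2-coverings of a curve with rational 2-torsion over an arbitrary field
-/

set_option autoImplicit false

namespace Pool.Agent.Helper68.RK

open Pool.Agent.Helper44.RED Pool.Agent.Helper44.CMF

private theorem sq0_CovG {K : Type} [Field K] {a b : K} (ha : a ≠ 0) (hb : a * b ^ 2 = 0) : b = 0 := by
  rcases mul_eq_zero.1 hb with h | h
  · exact absurd h ha
  · exact pow_eq_zero_iff (two_ne_zero) |>.1 h

/-- a point from a solution -/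
private theorem mkPt_CovG {K : Type} [Field K] [DecidableEq K] (hc : (2 : K) ≠ 0) (e : Fin 3 → K)
    (he : Function.Injective e) (d : Fin 3 → K) (hd : ∀ i, d i ≠ 0) (g : K) (hg : d 0 * d 1 * d 2 = g * g)
    (u v w : K) (e1 : d 0 * u ^ 2 - d 1 * v ^ 2 = e 1 - e 0) (e2 : d 0 * u ^ 2 - d 2 * w ^ 2 = e 2 - e 0) :
    ∃ P : (W e).Point, ∀ i, IsSquare (dl e i P * d i) := by
  have b1 : e 0 + d 0 * u ^ 2 - e 1 = d 1 * v ^ 2 := by linear_combination e1
  have b2 : e 0 + d 0 * u ^ 2 - e 2 = d 2 * w ^ 2 := by linear_combination e2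
  have hns : (W e).Nonsingular (e 0 + d 0 * u ^ 2) (g * u * v * w) := by
    rw [W_nonsingular hc _ he, b1, b2]
    linear_combination (- (u * v * w) ^ 2) * hg
  refine ⟨.some _ _ hns, fun i => ?_⟩
  fin_cases i
  · show IsSquare (dl e 0 _ * d 0)
    simp only [dl]
    split
    · rename_i hx
      have hu : u = 0 := sq0_CovG (hd 0) (by linear_combination hx)
      subst hu
      refine ⟨g * v * w, ?_⟩
      show ((e 0 - e 1) * (e 0 - e 2)) * d 0 = _
      have c1 : e 0 - e 1 = d 1 * v ^ 2 := by linear_combination b1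
      have c2 : e 0 - e 2 = d 2 * w ^ 2 := by linear_combination b2
      rw [c1, c2]
      linear_combination (v ^ 2 * w ^ 2) * hg
    · refine ⟨d 0 * u, ?_⟩
      ring
  · show IsSquare (dl e 1 _ * d 1)
    simp only [dl]
    split
    · rename_i hx
      have hv : v = 0 := sq0_CovG (hd 1) (by linear_combination hx - b1)
      subst hv
      refine ⟨g * u * w, ?_⟩
      show ((e 1 - e 2) * (e 1 - e 0)) * d 1 = _
      have c1 : e 1 - e 0 = d 0 * u ^ 2 := by linear_combination - b1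
      have c2 : e 1 - e 2 = d 2 * w ^ 2 := by linear_combination b2 - b1
      rw [c1, c2]
      linear_combination (u ^ 2 * w ^ 2) * hg
    · refine ⟨d 1 * v, ?_⟩
      rw [b1]
      ring
  · show IsSquare (dl e 2 _ * d 2)
    simp only [dl]
    split
    · rename_i hx
      have hw : w = 0 := sq0_CovG (hd 2) (by linear_combination hx - b2)
      subst hw
      refine ⟨g * u * v, ?_⟩
      show ((e 2 - e 0) * (e 2 - e 1)) * d 2 = _
      have c1 : e 2 - e 0 = d 0 * u ^ 2 := by linear_combination - b2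
      have c2 : e 2 - e 1 = d 1 * v ^ 2 := by linear_combination b1 - b2
      rw [c1, c2]
      linear_combination (u ^ 2 * v ^ 2) * hg
    · refine ⟨d 2 * w, ?_⟩
      rw [b2]
      ring

private theorem qf4_CovG {K : Type} [Field K] (a b c e : K) (x : Fin 4 → K) :
    qf ![a, b, c, e] x = a * x 0 ^ 2 + b * x 1 ^ 2 + c * x 2 ^ 2 + e * x 3 ^ 2 := by
  simp [qf, Fin.sum_univ_four]

private theorem sq_ne_CovG {K : Type} [Field K] {a g : K} (h : a = g * g) (ha : a ≠ 0) : g ≠ 0 := by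
  rintro rfl
  apply ha
  rw [h]; ring

private theorem div_CovG {K : Type} [Field K] {a d g : K} (hd : d ≠ 0) (h : a * d = g * g) :
    d * (g / d) ^ 2 = a := by
  rw [div_pow, pow_two g, ← h]
  field_simp

theorem pCovG : StCovG := by
  intro K _ _ hc e he d hd hg
  obtain ⟨g, hg⟩ := hg
  constructor
  · rintro ⟨x, hx, e1, e2⟩
    rw [qf4_CovG] at e1 e2
    by_cases hz : x 3 = 0
    · have e1' : d 0 * x 0 ^ 2 = d 1 * x 1 ^ 2 := by rw [hz] at e1; linear_combination e1
      have e2' : d 0 * x 0 ^ 2 = d 2 * x 2 ^ 2 := by rw [hz] at e2; linear_combination e2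
      have hu : x 0 ≠ 0 := by
        intro hu
        have hv : x 1 = 0 := sq0_CovG (hd 1) (by rw [← e1', hu]; ring)
        have hw : x 2 = 0 := sq0_CovG (hd 2) (by rw [← e2', hu]; ring)
        apply hx
        funext i
        fin_cases i <;> assumption
      have hv : x 1 ≠ 0 := by
        intro hv
        exact hu (sq0_CovG (hd 0) (by rw [e1', hv]; ring))
      have hw : x 2 ≠ 0 := by
        intro hw
        exact hu (sq0_CovG (hd 0) (by rw [e2', hw]; ring))
      refine ⟨.zero, fun i => ?_⟩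
      have f1 : d 1 = d 0 * x 0 ^ 2 / x 1 ^ 2 := by
        rw [eq_div_iff (pow_ne_zero 2 hv)]; exact e1'.symm
      have f2 : d 2 = d 0 * x 0 ^ 2 / x 2 ^ 2 := by
        rw [eq_div_iff (pow_ne_zero 2 hw)]; exact e2'.symm
      have hd0 := hd 0
      have q0 : d 0 = (g * x 1 * x 2 / (d 0 * x 0 ^ 2)) * (g * x 1 * x 2 / (d 0 * x 0 ^ 2)) := by
        have : (g * x 1 * x 2 / (d 0 * x 0 ^ 2)) * (g * x 1 * x 2 / (d 0 * x 0 ^ 2)) =
          (g * g) * (x 1 ^ 2 * x 2 ^ 2) / (d 0 * x 0 ^ 2) ^ 2 := by field_simp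
        rw [this, ← hg, f1, f2]
        field_simp
      have q : ∀ i, IsSquare (d i) := by
        intro i
        fin_cases i
        · exact ⟨_, q0⟩
        · refine ⟨(g * x 1 * x 2 / (d 0 * x 0 ^ 2)) * (x 0 / x 1), ?_⟩
          show d 1 = _
          have : (g * x 1 * x 2 / (d 0 * x 0 ^ 2)) * (x 0 / x 1) * ((g * x 1 * x 2 / (d 0 * x 0 ^ 2)) * (x 0 / x 1)) =
            ((g * x 1 * x 2 / (d 0 * x 0 ^ 2)) * (g * x 1 * x 2 / (d 0 * x 0 ^ 2))) * (x 0 ^ 2 / x 1 ^ 2) := by
            ring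
          rw [this, ← q0, f1]
          ring
        · refine ⟨(g * x 1 * x 2 / (d 0 * x 0 ^ 2)) * (x 0 / x 2), ?_⟩
          show d 2 = _
          have : (g * x 1 * x 2 / (d 0 * x 0 ^ 2)) * (x 0 / x 2) * ((g * x 1 * x 2 / (d 0 * x 0 ^ 2)) * (x 0 / x 2)) =
            ((g * x 1 * x 2 / (d 0 * x 0 ^ 2)) * (g * x 1 * x 2 / (d 0 * x 0 ^ 2))) * (x 0 ^ 2 / x 2 ^ 2) := by
            ring
          rw [this, ← q0, f2]
          ring
      show IsSquare (1 * d i)
      rw [one_mul]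
      exact q i
    · refine mkPt_CovG hc e he d hd g hg (x 0 / x 3) (x 1 / x 3) (x 2 / x 3) ?_ ?_
      · have : d 0 * (x 0 / x 3) ^ 2 - d 1 * (x 1 / x 3) ^ 2 = (d 0 * x 0 ^ 2 - d 1 * x 1 ^ 2) / x 3 ^ 2 := by
          ring
        rw [this, div_eq_iff (pow_ne_zero 2 hz)]
        linear_combination e1
      · have : d 0 * (x 0 / x 3) ^ 2 - d 2 * (x 2 / x 3) ^ 2 = (d 0 * x 0 ^ 2 - d 2 * x 2 ^ 2) / x 3 ^ 2 := by
          ring
        rw [this, div_eq_iff (pow_ne_zero 2 hz)]
        linear_combination e2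
  · rintro ⟨P, hP⟩
    obtain ⟨g0, hg0⟩ := hP 0
    obtain ⟨g1, hg1⟩ := hP 1
    obtain ⟨g2, hg2⟩ := hP 2
    rcases P with _ | ⟨x, y, hxy⟩
    · change 1 * d 0 = _ at hg0
      change 1 * d 1 = _ at hg1
      change 1 * d 2 = _ at hg2
      rw [one_mul] at hg0 hg1 hg2
      have n0 : g0 ≠ 0 := sq_ne_CovG hg0 (hd 0)
      have n1 : g1 ≠ 0 := sq_ne_CovG hg1 (hd 1)
      have n2 : g2 ≠ 0 := sq_ne_CovG hg2 (hd 2)
      have t0 : d 0 * (1 / g0) ^ 2 = 1 := by
        rw [hg0]; field_simp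
      have t1 : d 1 * (1 / g1) ^ 2 = 1 := by
        rw [hg1]; field_simp
      have t2 : d 2 * (1 / g2) ^ 2 = 1 := by
        rw [hg2]; field_simp
      refine ⟨![1 / g0, 1 / g1, 1 / g2, 0], ?_, ?_, ?_⟩
      · intro h
        have := congrFun h 0
        exact div_ne_zero one_ne_zero n0 this
      · rw [qf4_CovG]
        show d 0 * (1 / g0) ^ 2 + -d 1 * (1 / g1) ^ 2 + 0 * (1 / g2) ^ 2 + -(e 1 - e 0) * 0 ^ 2 = 0
        linear_combination t0 - t1
      · rw [qf4_CovG]
        show d 0 * (1 / g0) ^ 2 + 0 * (1 / g1) ^ 2 + -d 2 * (1 / g2) ^ 2 + -(e 2 - e 0) * 0 ^ 2 = 0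
        linear_combination t0 - t2
    · simp only [dl] at hg0 hg1 hg2
      have n01 : e 0 ≠ e 1 := fun h => absurd (he h) (by decide)
      have n02 : e 0 ≠ e 2 := fun h => absurd (he h) (by decide)
      have n12 : e 1 ≠ e 2 := fun h => absurd (he h) (by decide)
      by_cases x0 : x = e 0
      · subst x0
        rw [if_neg n01] at hg1
        rw [if_neg n02] at hg2
        have t1 := div_CovG (hd 1) hg1
        have t2 := div_CovG (hd 2) hg2
        refine ⟨![0, g1 / d 1, g2 / d 2, 1], ?_, ?_, ?_⟩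
        · intro h
          have := congrFun h 3
          exact one_ne_zero this
        · rw [qf4_CovG]
          show d 0 * 0 ^ 2 + -d 1 * (g1 / d 1) ^ 2 + 0 * (g2 / d 2) ^ 2 + -(e 1 - e 0) * 1 ^ 2 = 0
          linear_combination - t1
        · rw [qf4_CovG]
          show d 0 * 0 ^ 2 + 0 * (g1 / d 1) ^ 2 + -d 2 * (g2 / d 2) ^ 2 + -(e 2 - e 0) * 1 ^ 2 = 0
          linear_combination - t2
      by_cases x1 : x = e 1
      · subst x1
        rw [if_neg (Ne.symm n01)] at hg0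
        rw [if_neg n12] at hg2
        have t0 := div_CovG (hd 0) hg0
        have t2 := div_CovG (hd 2) hg2
        refine ⟨![g0 / d 0, 0, g2 / d 2, 1], ?_, ?_, ?_⟩
        · intro h
          have := congrFun h 3
          exact one_ne_zero this
        · rw [qf4_CovG]
          show d 0 * (g0 / d 0) ^ 2 + -d 1 * 0 ^ 2 + 0 * (g2 / d 2) ^ 2 + -(e 1 - e 0) * 1 ^ 2 = 0
          linear_combination t0
        · rw [qf4_CovG]
          show d 0 * (g0 / d 0) ^ 2 + 0 * 0 ^ 2 + -d 2 * (g2 / d 2) ^ 2 + -(e 2 - e 0) * 1 ^ 2 = 0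
          linear_combination t0 - t2
      by_cases x2 : x = e 2
      · subst x2
        rw [if_neg (Ne.symm n02)] at hg0
        rw [if_neg (Ne.symm n12)] at hg1
        have t0 := div_CovG (hd 0) hg0
        have t1 := div_CovG (hd 1) hg1
        refine ⟨![g0 / d 0, g1 / d 1, 0, 1], ?_, ?_, ?_⟩
        · intro h
          have := congrFun h 3
          exact one_ne_zero this
        · rw [qf4_CovG]
          show d 0 * (g0 / d 0) ^ 2 + -d 1 * (g1 / d 1) ^ 2 + 0 * 0 ^ 2 + -(e 1 - e 0) * 1 ^ 2 = 0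
          linear_combination t0 - t1
        · rw [qf4_CovG]
          show d 0 * (g0 / d 0) ^ 2 + 0 * (g1 / d 1) ^ 2 + -d 2 * 0 ^ 2 + -(e 2 - e 0) * 1 ^ 2 = 0
          linear_combination t0
      rw [if_neg x0] at hg0
      rw [if_neg x1] at hg1
      rw [if_neg x2] at hg2
      have t0 := div_CovG (hd 0) hg0
      have t1 := div_CovG (hd 1) hg1
      have t2 := div_CovG (hd 2) hg2
      refine ⟨![g0 / d 0, g1 / d 1, g2 / d 2, 1], ?_, ?_, ?_⟩
      · intro h
        have := congrFun h 3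
        exact one_ne_zero this
      · rw [qf4_CovG]
        show d 0 * (g0 / d 0) ^ 2 + -d 1 * (g1 / d 1) ^ 2 + 0 * (g2 / d 2) ^ 2 + -(e 1 - e 0) * 1 ^ 2 = 0
        linear_combination t0 - t1
      · rw [qf4_CovG]
        show d 0 * (g0 / d 0) ^ 2 + 0 * (g1 / d 1) ^ 2 + -d 2 * (g2 / d 2) ^ 2 + -(e 2 - e 0) * 1 ^ 2 = 0
        linear_combination t0 - t2

end Pool.Agent.Helper68.RK
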