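import Pool.Agent.Helper68.RK.StF
import Pool.Agent.Helper44.RED.StD

/-!
# Project RK: module GenD (AB for systems of diagonal forms)
-/

set_option autoImplicit false

open MvPolynomial

namespace Pool.Agent.Helper68.RK

open Pool.Agent.Helper44.RED Pool.Agent.Helper44.CMF

private lemma qm_diag_GenD {R : Type} [CommRing R] {N : ℕ} (d u : Fin N → R) :
    qm (Matrix.diagonal d) u = qf d u := by
  unfold qm qf dotProduct
  refine Finset.sum_congr rfl fun i _ => ?_
  rw [Matrix.mulVec_diagonal]
  ring

private lemma qf_equiv_GenD {R ι κ : Type} [CommRing R] [Fintype ι] [Fintype κ] (σ : κ ≃ ι)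
    (a x : ι → R) : qf (fun i => a (σ i)) (fun i => x (σ i)) = qf a x := by
  unfold qf
  exact Equiv.sum_comp σ (fun i => a i * x i ^ 2)

private lemma qf_map_GenD {R S ι : Type} [CommRing R] [CommRing S] [Fintype ι] (φ : R →+* S)
    (a x : ι → R) : qf (fun i => φ (a i)) (fun i => φ (x i)) = φ (qf a x) := by
  unfold qf
  rw [map_sum]
  exact Finset.sum_congr rfl fun i _ => by rw [map_mul, map_pow]

private lemma aniso_equiv_GenD {F G ι κ : Type} [Field F] [Field G] [Fintype ι] [Fintype κ]
    (θ : F ≃+* G) (τ : κ ≃ ι) (d' : κ → F) (d : ι → G) (h : ∀ n, θ (d' n) = d (τ n)) :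
    Aniso d ↔ Aniso d' := by
  constructor
  · intro han x hx
    have h1 := han (fun i => θ (x (τ.symm i))) (by
      rw [← qf_equiv_GenD τ d]
      simp only [Equiv.symm_apply_apply, ← h]
      have := qf_map_GenD θ.toRingHom d' x
      simp only [RingEquiv.toRingHom_eq_coe, RingHom.coe_coe] at this
      rw [this, hx, map_zero])
    funext n
    have := congrFun h1 (τ n)
    simpa using this
  · intro han y hy
    have h1 := han (fun n => θ.symm (y (τ n))) (by
      have h2 : ∀ n, d' n = θ.symm (d (τ n)) := fun n => by rw [← h, RingEquiv.symm_apply_apply]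
      have h3 : d' = fun n => θ.symm (d (τ n)) := funext h2
      rw [h3]
      have := qf_map_GenD θ.symm.toRingHom (fun n => d (τ n)) (fun n => y (τ n))
      simp only [RingEquiv.toRingHom_eq_coe, RingHom.coe_coe] at this
      rw [this, qf_equiv_GenD τ d y, hy, map_zero])
    funext i
    have := congrFun h1 (τ.symm i)
    simpa using this

theorem pGenD : StAB → StGenD := by
  intro hAB K Ε Β _ _ _ _ c
  let σ : Fin (Fintype.card Ε) ≃ Ε := (Fintype.equivFin Ε).symm
  let τ : Fin (Fintype.card Β) ≃ Β := (Fintype.equivFin Β).symm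
  let ρ : MvPolynomial (Fin (Fintype.card Ε)) K ≃+* MvPolynomial Ε K :=
    (renameEquiv K σ).toRingEquiv
  let θ : KT K (Fintype.card Ε) ≃+* FractionRing (MvPolynomial Ε K) :=
    IsFractionRing.ringEquivOfRingEquiv ρ
  have hθ : ∀ q, θ (algebraMap (MvPolynomial (Fin (Fintype.card Ε)) K) _ q) =
      algebraMap (MvPolynomial Ε K) _ (rename σ q) := fun q =>
    IsFractionRing.ringEquivOfRingEquiv_algebraMap ρ q
  set A : Fin (Fintype.card Ε) → Matrix (Fin (Fintype.card Β)) (Fin (Fintype.card Β)) K :=
    fun i => Matrix.diagonal fun n => c (σ i) (τ n) with hA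
  have hmat : (∑ i, tv K (Fintype.card Ε) i • (A i).map (algebraMap K (KT K (Fintype.card Ε)))) =
      Matrix.diagonal (fun n => ∑ i, tv K (Fintype.card Ε) i *
        algebraMap K (KT K (Fintype.card Ε)) (c (σ i) (τ n))) := by
    ext a b
    rw [Matrix.sum_apply]
    simp only [hA, Matrix.smul_apply, Matrix.map_apply, Matrix.diagonal_apply, smul_eq_mul]
    by_cases hab : a = b
    · simp [hab]
    · simp [hab]
  have key : (MIso (∑ i, tv K (Fintype.card Ε) i •
      (A i).map (algebraMap K (KT K (Fintype.card Ε))))) ↔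
      ¬ Aniso (fun β => ∑ e, algebraMap (MvPolynomial Ε K) (FractionRing (MvPolynomial Ε K))
        (X e * C (c e β))) := by
    rw [hmat]
    rw [aniso_equiv_GenD θ τ (fun n => ∑ i, tv K (Fintype.card Ε) i *
        algebraMap K (KT K (Fintype.card Ε)) (c (σ i) (τ n)))
      (fun β => ∑ e, algebraMap (MvPolynomial Ε K) (FractionRing (MvPolynomial Ε K))
        (X e * C (c e β))) ?_]
    · unfold MIso Aniso
      push Not
      constructor
      · rintro ⟨u, hu, h⟩
        rw [qm_diag_GenD] at h
        exact ⟨u, h, hu⟩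
      · rintro ⟨u, h, hu⟩
        exact ⟨u, hu, by rw [qm_diag_GenD]; exact h⟩
    · intro n
      rw [map_sum, ← Equiv.sum_comp σ (fun e => algebraMap (MvPolynomial Ε K)
        (FractionRing (MvPolynomial Ε K)) (X e * C (c e (τ n))))]
      refine Finset.sum_congr rfl fun i _ => ?_
      have e1 : tv K (Fintype.card Ε) i * algebraMap K (KT K (Fintype.card Ε)) (c (σ i) (τ n)) =
          algebraMap (MvPolynomial (Fin (Fintype.card Ε)) K) (KT K (Fintype.card Ε))
            (X i * C (c (σ i) (τ n))) := by
        rw [map_mul]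
        rfl
      rw [e1, hθ, map_mul, rename_X, rename_C]
  rw [← key, hAB K _ _ A]
  unfold OddZ
  constructor
  · rintro ⟨L, _, _, hL, u, hu, h⟩
    refine ⟨L, inferInstance, inferInstance, hL, fun β => u (τ.symm β), ?_, ?_⟩
    · intro h0
      apply hu
      funext n
      have := congrFun h0 (τ n)
      simpa using this
    · intro e
      have h1 := h (A (σ.symm e)) ⟨_, rfl⟩
      simp only [hA, Equiv.apply_symm_apply] at h1
      rw [Matrix.diagonal_map (map_zero _), qm_diag_GenD] at h1
      rw [← qf_equiv_GenD τ]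
      simp only [Equiv.symm_apply_apply]
      exact h1
  · rintro ⟨L, _, _, hL, z, hz, h⟩
    refine ⟨L, inferInstance, inferInstance, hL, fun n => z (τ n), ?_, ?_⟩
    · intro h0
      apply hz
      funext β
      have := congrFun h0 (τ.symm β)
      simpa using this
    · rintro _ ⟨i, rfl⟩
      rw [hA]
      beta_reduce
      rw [Matrix.diagonal_map (map_zero _), qm_diag_GenD]
      have h2 := h (σ i)
      rw [← qf_equiv_GenD τ] at h2
      exact h2

end Pool.Agent.Helper68.RK
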