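import Pool.Agent.Helper68.RK.StR

set_option autoImplicit false

namespace Pool.Agent.Helper68.RK

open Pool.Agent.Helper44.RED Pool.Agent.Helper44.CMF

/-- The class map induces an injection of `G / 2 G`. -/
theorem pQuo : StQuo := by
  intro G _ s c hadd hker
  have h0 : ∀ i j, c 0 i j = false := by
    intro i j
    have h := hadd 0 0 i j
    rw [add_zero] at h
    cases hc : c 0 i j <;> simp [hc] at h ⊢
  have hneg : ∀ P i j, c (-P) i j = c P i j := by
    intro P i j
    have h := hadd P (-P) i j
    rw [add_neg_cancel, h0] at h
    cases hc : c P i j <;> cases hd : c (-P) i j <;> simp [hc, hd] at h ⊢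
  have hdbl : ∀ P i j, c (P + P) i j = false := by
    intro P i j
    rw [hadd]
    simp
  have hiff : ∀ P Q : G, c P = c Q ↔ -P + Q ∈ (nsmulAddMonoidHom (α := G) 2).range := by
    intro P Q
    constructor
    · intro h
      obtain ⟨R, hR⟩ := hker (-P + Q) (by
        intro i j
        rw [hadd, hneg, h]
        simp)
      refine ⟨R, ?_⟩
      rw [hR]
      simp [two_nsmul]
    · rintro ⟨R, hR⟩
      have hR' : Q = P + (R + R) := by
        have h2 : R + R = -P + Q := by
          rw [← hR]
          simp [two_nsmul]
        rw [h2]
        abel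
      funext i j
      rw [hR', hadd, hdbl]
      simp
  refine (Nat.card_congr (Equiv.ofBijective
    (fun q : G ⧸ (nsmulAddMonoidHom (α := G) 2).range =>
      (Quotient.liftOn' q (fun P => (⟨c P, P, rfl⟩ : {M // ∃ P, c P = M})) (by
        intro P Q h
        rw [QuotientAddGroup.leftRel_apply] at h
        exact Subtype.ext ((hiff P Q).2 h)))) ?_)).symm
  constructor
  · intro q r
    induction q using QuotientAddGroup.induction_on with
    | H P =>
      induction r using QuotientAddGroup.induction_on with
      | H Q =>
        intro h
        have h' : c P = c Q := congrArg Subtype.val h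
        exact QuotientAddGroup.eq.2 ((hiff P Q).1 h')
  · rintro ⟨M, P, rfl⟩
    exact ⟨(P : G ⧸ (nsmulAddMonoidHom (α := G) 2).range), rfl⟩

end Pool.Agent.Helper68.RK
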