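import Pool.Agent.Helper68.RK.StF

/-!
# Project RK: module RF (final assembly of part F), by helper90
-/

set_option autoImplicit false

open MvPolynomial

namespace Pool.Agent.Helper68.RK

open Pool.Agent.Helper44.RED Pool.Agent.Helper44.CMF

/-- the polynomial `d_i` over `R` -/
private noncomputable def dp_RF {R : Type} [CommRing R] {n s : ℕ} (p : Fin s → MvPolynomial (Fin n) R)
    (r : Fin s → Bool) : MvPolynomial (Fin n) R := ∏ j, if r j then p j else 1

private theorem map_dp_RF {R k : Type} [CommRing R] [Field k] (φ : R →+* k) {n s : ℕ}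
    (p : Fin s → MvPolynomial (Fin n) R) (r : Fin s → Bool) :
    algebraMap (AN n k) (KN n k) (map φ (dp_RF p r)) = dN (fun j => map φ (p j)) r := by
  unfold dp_RF dN
  rw [map_prod, map_prod]
  refine Finset.prod_congr rfl fun j _ => ?_
  split_ifs
  · rfl
  · rw [map_one, map_one]

private theorem dN_ne_RF {n s : ℕ} {k : Type} [Field k] {p : Fin s → AN n k} (hp : Irr p)
    (r : Fin s → Bool) : dN p r ≠ 0 := by
  unfold dN
  refine Finset.prod_ne_zero_iff.2 fun j _ => ?_
  split_ifs
  · intro h
    exact (hp.1 j).ne_zero ((IsFractionRing.injective (AN n k) (KN n k)) (by rw [h, map_zero]))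
  · exact one_ne_zero

private theorem sq_RF (hInd : StIndN) {n s : ℕ} {k : Type} [Field k] {p : Fin s → AN n k} (hp : Irr p)
    (M : Fin 2 → Fin s → Bool) :
    IsSquare (dN p (M3 M 0) * dN p (M3 M 1) * dN p (M3 M 2)) := by
  have h1 : dN p (fun _ => false) = 1 := by simp [dN]
  have h2 := (hInd k n s p hp (M3 M 0) (M3 M 1) (M3 M 2) (fun _ => false)).2 (by
    intro j
    simp only [M3, Matrix.cons_val_zero, Matrix.cons_val_one, Matrix.cons_val]
    cases M 0 j <;> cases M 1 j <;> rfl)
  rwa [h1, mul_one] at h2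

/-- the two vectors of coefficients over `R` -/
private noncomputable def va_RF {R : Type} [CommRing R] {n s : ℕ} (p : Fin s → MvPolynomial (Fin n) R)
    (E : Fin 3 → MvPolynomial (Fin n) R) (M : Fin 2 → Fin s → Bool) :
    Fin 4 → MvPolynomial (Fin n) R := ![dp_RF p (M3 M 0), -dp_RF p (M3 M 1), 0, -(E 1 - E 0)]

private noncomputable def vb_RF {R : Type} [CommRing R] {n s : ℕ} (p : Fin s → MvPolynomial (Fin n) R)
    (E : Fin 3 → MvPolynomial (Fin n) R) (M : Fin 2 → Fin s → Bool) :
    Fin 4 → MvPolynomial (Fin n) R := ![dp_RF p (M3 M 0), 0, -dp_RF p (M3 M 2), -(E 2 - E 0)]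

private theorem nz_RF {R : Type} [CommRing R] {n s : ℕ}
    (p : Fin s → MvPolynomial (Fin n) R) (E : Fin 3 → MvPolynomial (Fin n) R)
    (M : Fin 2 → Fin s → Bool) {k : Type} [Field k] (φ : R →+* k)
    (hI : Irr (fun j => map φ (p j)))
    (hD : Disc (fun j => map φ (p j)) (fun i => map φ (E i))) (i : Fin 4) :
    map φ (va_RF p E M i) ≠ 0 ∨ map φ (vb_RF p E M i) ≠ 0 := by
  have hdp : ∀ r, map φ (dp_RF p r) ≠ 0 := by
    intro r h0
    have h1 := map_dp_RF φ p r
    rw [h0, map_zero] at h1
    exact dN_ne_RF hI r h1.symm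
  have hE10 : map φ (E 1) - map φ (E 0) ≠ 0 := by
    rw [sub_ne_zero]
    intro h0
    have := hD.1 h0
    exact absurd this (by decide)
  unfold va_RF vb_RF
  fin_cases i
  · left
    simpa using hdp (M3 M 0)
  · left
    simpa using hdp (M3 M 1)
  · right
    simpa using hdp (M3 M 2)
  · left
    simp only [Fin.reduceFinMk, Matrix.cons_val, map_neg, map_sub]
    exact neg_ne_zero.2 hE10

private theorem cov_RF (hInd : StIndN) (hCov : StCovG) {R : Type} [CommRing R] {n s : ℕ}
    (p : Fin s → MvPolynomial (Fin n) R) (E : Fin 3 → MvPolynomial (Fin n) R)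
    (M : Fin 2 → Fin s → Bool) {k : Type} [Field k] [DecidableEq (KN n k)] (h2k : (2 : k) ≠ 0)
    (φ : R →+* k)
    (hI : Irr (fun j => map φ (p j)))
    (hD : Disc (fun j => map φ (p j)) (fun i => map φ (E i))) :
    (∃ x : Fin 4 → KN n k, x ≠ 0 ∧
        qf (fun i => algebraMap (AN n k) (KN n k) (map φ (va_RF p E M i))) x = 0 ∧
        qf (fun i => algebraMap (AN n k) (KN n k) (map φ (vb_RF p E M i))) x = 0) ↔
      ∃ P, Cls (fun j => map φ (p j)) (fun i => map φ (E i)) P M := by
  have hinj : Function.Injective (algebraMap (AN n k) (KN n k)) := IsFractionRing.injective _ _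
  have h2K : (2 : KN n k) ≠ 0 := by
    intro h0
    apply h2k
    have h1 : algebraMap (AN n k) (KN n k) (C (2 : k)) = 0 := by
      rw [map_ofNat, map_ofNat]; exact h0
    have h3 := hinj (h1.trans (map_zero _).symm)
    exact (C_eq_zero).1 h3
  have hr : Function.Injective (rN (fun i => map φ (E i))) := fun i j hij => hD.1 (hinj hij)
  have hcov := hCov (KN n k) h2K (rN (fun i => map φ (E i))) hr
    (fun i => dN (fun j => map φ (p j)) (M3 M i)) (fun i => dN_ne_RF hI _) (sq_RF hInd hI M)
  have e1 : (fun i => algebraMap (AN n k) (KN n k) (map φ (va_RF p E M i))) =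
      ![dN (fun j => map φ (p j)) (M3 M 0), -dN (fun j => map φ (p j)) (M3 M 1), 0,
        -(rN (fun i => map φ (E i)) 1 - rN (fun i => map φ (E i)) 0)] := by
    unfold va_RF
    funext i
    fin_cases i
    · simp [map_dp_RF]
    · simp [map_dp_RF]
    · simp
    · simp [rN]
  have e2 : (fun i => algebraMap (AN n k) (KN n k) (map φ (vb_RF p E M i))) =
      ![dN (fun j => map φ (p j)) (M3 M 0), 0, -dN (fun j => map φ (p j)) (M3 M 2),
        -(rN (fun i => map φ (E i)) 2 - rN (fun i => map φ (E i)) 0)] := by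
    unfold vb_RF
    funext i
    fin_cases i
    · simp [map_dp_RF]
    · simp
    · simp [map_dp_RF]
    · simp [rN]
  rw [e1, e2]
  exact hcov

/-- counting: an injective family of `N` elements of a finite set -/
private theorem count_RF {A : Type} [Finite A] (S : A → Prop) (N : ℕ) :
    (∃ f : {f : Fin N → A // Function.Injective f}, ∀ j, S (f.1 j)) ↔ N ≤ Nat.card {a // S a} := by
  constructor
  · rintro ⟨⟨f, hf⟩, h⟩
    have h1 : Function.Injective (fun j : Fin N => (⟨f j, h j⟩ : {a // S a})) := by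
      intro i j hij
      exact hf (congrArg Subtype.val hij)
    have h2 := Nat.card_le_card_of_injective _ h1
    rwa [Nat.card_eq_fintype_card, Fintype.card_fin] at h2
  · intro h
    classical
    have := Fintype.ofFinite {a // S a}
    rw [Nat.card_eq_fintype_card] at h
    have h1 : Fintype.card (Fin N) ≤ Fintype.card {a // S a} := by rwa [Fintype.card_fin]
    obtain ⟨e⟩ := Function.Embedding.nonempty_of_card_le h1
    exact ⟨⟨fun j => (e j).1, fun i j hij => e.injective (Subtype.ext hij)⟩, fun j => (e j).2⟩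

theorem pRF : StAndN → StIndN → StCovG → StClsR → StQuo → StRnk → StTor → StRF := by
  intro hAnd hInd hCov hCls hQuo hRnk hTor R _ n s p E N hN1 hN4
  classical
  have hΞ : Nonempty {f : Fin N → (Fin 2 → Fin s → Bool) // Function.Injective f} := by
    have h1 : Fintype.card (Fin N) ≤ Fintype.card (Fin 2 → Fin s → Bool) := by
      rw [Fintype.card_fin, Fintype.card_fun, Fintype.card_fun, Fintype.card_bool,
        Fintype.card_fin, Fintype.card_fin, ← pow_mul, mul_comm s 2, pow_mul]
      exact hN4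
    obtain ⟨e⟩ := Function.Embedding.nonempty_of_card_le h1
    exact ⟨⟨e, e.injective⟩⟩
  have hJ : Nonempty (Fin N) := ⟨⟨0, hN1⟩⟩
  obtain ⟨v, q, g, h⟩ := hAnd R {f : Fin N → (Fin 2 → Fin s → Bool) // Function.Injective f}
    (Fin N) (Fin 4) n (fun f j => va_RF p E (f.1 j)) (fun f j => vb_RF p E (f.1 j))
  refine ⟨v, q, g, ?_⟩
  intro k _ _ _ _ φ hI hD
  have h2k : (2 : k) ≠ 0 := two_ne_zero
  have hG := h k φ (fun f j i => nz_RF p E (f.1 j) φ hI hD i)
  obtain ⟨c, hc1, hc2, hc3⟩ := hCls k n s h2k (fun j => map φ (p j)) hI (fun i => map φ (E i)) hD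
  have key : (∃ f : {f : Fin N → (Fin 2 → Fin s → Bool) // Function.Injective f},
      ∀ j, ∃ x : Fin 4 → KN n k, x ≠ 0 ∧
        qf (fun i => algebraMap (AN n k) (KN n k) (map φ (va_RF p E (f.1 j) i))) x = 0 ∧
        qf (fun i => algebraMap (AN n k) (KN n k) (map φ (vb_RF p E (f.1 j) i))) x = 0) ↔
      N ≤ Nat.card ((W (rN fun i => map φ (E i))).Point ⧸ (nsmulAddMonoidHom
        (α := (W (rN fun i => map φ (E i))).Point) 2).range) := by
    rw [← hQuo _ s c hc2 hc3, ← count_RF (fun M => ∃ P, c P = M) N]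
    refine exists_congr fun f => forall_congr' fun j => ?_
    rw [cov_RF hInd hCov p E (f.1 j) h2k φ hI hD]
    exact exists_congr fun P => hc1 P (f.1 j)
  have hG1 : Good φ g (N ≤ Nat.card ((W (rN fun i => map φ (E i))).Point ⧸ (nsmulAddMonoidHom
        (α := (W (rN fun i => map φ (E i))).Point) 2).range)) := by
    rw [← propext key]
    exact hG
  refine ⟨hG1, fun hFG r hr => ?_⟩
  have hinj : Function.Injective (algebraMap (AN n k) (KN n k)) := IsFractionRing.injective _ _
  have h2K : (2 : KN n k) ≠ 0 := by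
    intro h0
    apply h2k
    have h1 : algebraMap (AN n k) (KN n k) (C (2 : k)) = 0 := by
      rw [map_ofNat, map_ofNat]; exact h0
    have h3 := hinj (h1.trans (map_zero _).symm)
    exact (C_eq_zero).1 h3
  have hT := hTor (KN n k) h2K (rN fun i => map φ (E i)) (fun i j hij => hD.1 (hinj hij))
  have hcard : Nat.card ((W (rN fun i => map φ (E i))).Point ⧸ (nsmulAddMonoidHom
        (α := (W (rN fun i => map φ (E i))).Point) 2).range) =
      2 ^ (Module.finrank ℤ (W (rN fun i => map φ (E i))).Point + 2) := by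
    refine (hRnk _ hFG).trans ?_
    refine (congrArg (fun a => 2 ^ Module.finrank ℤ (W (rN fun i => map φ (E i))).Point * a)
      hT).trans ?_
    show 2 ^ Module.finrank ℤ (W (rN fun i => map φ (E i))).Point * 4 = _
    rw [pow_add]
    norm_num
  have key2 : (N ≤ Nat.card ((W (rN fun i => map φ (E i))).Point ⧸ (nsmulAddMonoidHom
        (α := (W (rN fun i => map φ (E i))).Point) 2).range)) ↔
      r ≤ Module.finrank ℤ (W (rN fun i => map φ (E i))).Point := by
    rw [hcard, hr, Nat.pow_le_pow_iff_right (by norm_num : 1 < 2)]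
    omega
  rw [← propext key2]
  exact hG1

end Pool.Agent.Helper68.RK
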