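import Pool.Agent.Helper68.RK.StR

/-!
# RK, module Rnk: the order of `G / 2 G` for a finitely generated abelian group (helper80)
-/

set_option autoImplicit false

namespace Pool.Agent.Helper68.RK

open Pool.Agent.Helper44.RED Pool.Agent.Helper44.CMF

private theorem finT (ι : Type) [Fintype ι] (p : ι → ℕ) (hp : ∀ i, Nat.Prime (p i)) (e : ι → ℕ) :
    Finite (DirectSum ι fun i => ZMod (p i ^ e i)) := by
  classical
  haveI : ∀ i, NeZero (p i ^ e i) := fun i => ⟨pow_ne_zero _ (hp i).ne_zero⟩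
  haveI : ∀ i, Finite (ZMod (p i ^ e i)) := fun i => inferInstance
  exact Finite.of_equiv _ (DFinsupp.equivFunOnFintype (β := fun i => ZMod (p i ^ e i))).symm

private theorem finCard (T : Type) [AddCommGroup T] [Finite T] :
    (nsmulAddMonoidHom (α := T) 2).range.index = Nat.card {P : T // P + P = 0} := by
  have h1 := (nsmulAddMonoidHom (α := T) 2).range.index_mul_card
  have h2 := (nsmulAddMonoidHom (α := T) 2).ker.index_mul_card
  have h3 := AddSubgroup.index_ker (nsmulAddMonoidHom (α := T) 2)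
  have h4 : Nat.card (nsmulAddMonoidHom (α := T) 2).ker = Nat.card {P : T // P + P = 0} := by
    refine Nat.card_congr (Equiv.subtypeEquivRight fun x => ?_)
    rw [AddMonoidHom.mem_ker, nsmulAddMonoidHom_apply, two_nsmul]
  have h5 : 0 < Nat.card (nsmulAddMonoidHom (α := T) 2).range := Nat.card_pos
  rw [h3, h4, ← h1] at h2
  rw [mul_comm] at h2
  exact (Nat.eq_of_mul_eq_mul_right h5 h2).symm

private theorem freeCard (n : ℕ) :
    (nsmulAddMonoidHom (α := Fin n →₀ ℤ) 2).range.index = 2 ^ n := by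
  classical
  let f : (Fin n →₀ ℤ) →+ (Fin n → ZMod 2) :=
    { toFun := fun v i => ((v i : ℤ) : ZMod 2)
      map_zero' := by funext i; simp
      map_add' := fun v w => by funext i; simp }
  have hk : f.ker = (nsmulAddMonoidHom (α := Fin n →₀ ℤ) 2).range := by
    ext v
    rw [AddMonoidHom.mem_ker, AddMonoidHom.mem_range]
    constructor
    · intro h
      have h' : ∀ i, (2 : ℤ) ∣ v i := fun i => by
        have := congrFun h i
        exact (ZMod.intCast_zmod_eq_zero_iff_dvd (v i) 2).1 this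
      refine ⟨Finsupp.equivFunOnFinite.symm fun i => v i / 2, ?_⟩
      rw [nsmulAddMonoidHom_apply]
      ext i
      rw [Finsupp.smul_apply, Finsupp.coe_equivFunOnFinite_symm]
      obtain ⟨m, hm⟩ := h' i
      rw [hm]; simp
    · rintro ⟨w, rfl⟩
      funext i
      change (((2 • w : Fin n →₀ ℤ) i : ℤ) : ZMod 2) = 0
      rw [Finsupp.smul_apply]
      rw [ZMod.intCast_zmod_eq_zero_iff_dvd]
      exact ⟨w i, by simp⟩
  have hs : Function.Surjective f := by
    intro u
    refine ⟨Finsupp.equivFunOnFinite.symm fun i => ((u i).val : ℤ), ?_⟩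
    funext i
    change (((Finsupp.equivFunOnFinite.symm fun i => ((u i).val : ℤ)) i : ℤ) : ZMod 2) = u i
    rw [Finsupp.coe_equivFunOnFinite_symm]
    simp
  rw [← hk, AddSubgroup.index_ker, AddMonoidHom.range_eq_top.2 hs]
  rw [AddSubgroup.card_top]
  simp

private theorem rk (n : ℕ) (T : Type) [AddCommGroup T] [Finite T] :
    Module.finrank ℤ ((Fin n →₀ ℤ) × T) = n := by
  have h := (LinearMap.fst ℤ (Fin n →₀ ℤ) T).rank_range_add_rank_ker
  have h0 : Module.rank ℤ (LinearMap.ker (LinearMap.fst ℤ (Fin n →₀ ℤ) T)) = 0 := by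
    rw [rank_eq_zero_iff]
    rintro ⟨⟨a, t⟩, ht⟩
    have ha : a = 0 := ht
    subst ha
    refine ⟨(Nat.card T : ℤ), by exact_mod_cast (Nat.card_pos (α := T)).ne', ?_⟩
    apply Subtype.ext
    refine Prod.ext ?_ ?_
    · change (Nat.card T : ℤ) • (0 : Fin n →₀ ℤ) = 0
      rw [smul_zero]
    · change (Nat.card T : ℤ) • t = 0
      rw [natCast_zsmul]
      exact card_nsmul_eq_zero'
  rw [h0, add_zero, LinearMap.range_eq_top.2 LinearMap.fst_surjective] at h
  rw [Module.finrank, ← h, rank_top]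
  simp

private theorem core (G T : Type) [AddCommGroup G] [AddCommGroup T] [Finite T] (n : ℕ)
    (E : G ≃+ (Fin n →₀ ℤ) × T) :
    Nat.card (G ⧸ (nsmulAddMonoidHom (α := G) 2).range) =
      2 ^ Module.finrank ℤ G * Nat.card {P : G // P + P = 0} := by
  have h1 : Module.finrank ℤ G = n := by
    rw [E.toIntLinearEquiv.finrank_eq, rk]
  have h2 : Nat.card {P : G // P + P = 0} = Nat.card {P : T // P + P = 0} := by
    have hfree : ∀ v : Fin n →₀ ℤ, v + v = 0 → v = 0 := fun v hv => by
      ext i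
      have := DFunLike.congr_fun hv i
      rw [Finsupp.add_apply, Finsupp.zero_apply] at this
      rw [Finsupp.zero_apply]
      omega
    refine Nat.card_congr ⟨fun P => ⟨(E P.1).2, ?_⟩, fun t => ⟨E.symm (0, t.1), ?_⟩, ?_, ?_⟩
    · have := congrArg E P.2
      rw [map_add, map_zero] at this
      exact (Prod.ext_iff.1 this).2
    · rw [← map_add, Prod.mk_add_mk, t.2, add_zero]
      exact map_zero _
    · rintro ⟨P, hP⟩
      apply Subtype.ext
      have := congrArg E hP
      rw [map_add, map_zero] at this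
      have h0 := hfree _ (Prod.ext_iff.1 this).1
      change E.symm (0, (E P).2) = P
      rw [← h0]
      exact E.symm_apply_apply P
    · rintro ⟨t, ht⟩
      apply Subtype.ext
      change (E (E.symm (0, t))).2 = t
      rw [E.apply_symm_apply]
  have h3 : Nat.card (G ⧸ (nsmulAddMonoidHom (α := G) 2).range) =
      (nsmulAddMonoidHom (α := (Fin n →₀ ℤ) × T) 2).range.index := by
    change _ = Nat.card (((Fin n →₀ ℤ) × T) ⧸ (nsmulAddMonoidHom (α := (Fin n →₀ ℤ) × T) 2).range)
    refine Nat.card_congr (QuotientAddGroup.congr _ _ E ?_).toEquiv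
    ext x
    rw [AddSubgroup.mem_map]
    constructor
    · rintro ⟨y, ⟨z, rfl⟩, rfl⟩
      exact ⟨E z, by rw [nsmulAddMonoidHom_apply, nsmulAddMonoidHom_apply]; exact (map_nsmul E 2 z).symm⟩
    · rintro ⟨z, rfl⟩
      refine ⟨nsmulAddMonoidHom (α := G) 2 (E.symm z), ⟨_, rfl⟩, ?_⟩
      rw [nsmulAddMonoidHom_apply, nsmulAddMonoidHom_apply]
      change E (2 • E.symm z) = 2 • z
      rw [map_nsmul, E.apply_symm_apply]
  have h4 : (nsmulAddMonoidHom (α := (Fin n →₀ ℤ) × T) 2).range =
      (nsmulAddMonoidHom (α := Fin n →₀ ℤ) 2).range.prod (nsmulAddMonoidHom (α := T) 2).range := by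
    ext ⟨a, t⟩
    rw [AddSubgroup.mem_prod]
    constructor
    · rintro ⟨⟨b, u⟩, h⟩
      exact ⟨⟨b, (Prod.ext_iff.1 h).1⟩, ⟨u, (Prod.ext_iff.1 h).2⟩⟩
    · rintro ⟨⟨b, hb⟩, ⟨u, hu⟩⟩
      exact ⟨(b, u), Prod.ext hb hu⟩
  rw [h3, h4, AddSubgroup.index_prod, freeCard, finCard, h1, h2]

theorem pRnk : StRnk := by
  intro G _ hG
  obtain ⟨n, ι, _, p, hp, e, ⟨E⟩⟩ := AddCommGroup.equiv_free_prod_directSum_zmod (hG := hG) G
  have := finT ι p hp e
  exact core G _ n E

end Pool.Agent.Helper68.RK
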