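import Pool.Agent.Helper68.RK.StF
import Pool.Agent.Helper44.RED.StD

/-!
# Project RK: module Spr2 (pairs of diagonal forms and odd extensions)
-/

set_option autoImplicit false

open Polynomial

namespace Pool.Agent.Helper68.RK

open Pool.Agent.Helper44.RED Pool.Agent.Helper44.CMF

private lemma qm_diag_Spr2 {R : Type} [CommRing R] {N : ℕ} (d u : Fin N → R) :
    qm (Matrix.diagonal d) u = qf d u := by
  unfold qm qf dotProduct
  refine Finset.sum_congr rfl fun i _ => ?_
  rw [Matrix.mulVec_diagonal]
  ring

private lemma qf_equiv_Spr2 {R ι κ : Type} [CommRing R] [Fintype ι] [Fintype κ] (σ : κ ≃ ι)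
    (a x : ι → R) : qf (fun i => a (σ i)) (fun i => x (σ i)) = qf a x := by
  unfold qf
  exact Equiv.sum_comp σ (fun i => a i * x i ^ 2)

private lemma qf_map_Spr2 {R S ι : Type} [CommRing R] [CommRing S] [Fintype ι] (φ : R →+* S)
    (a x : ι → R) : qf (fun i => φ (a i)) (fun i => φ (x i)) = φ (qf a x) := by
  unfold qf
  rw [map_sum]
  exact Finset.sum_congr rfl fun i _ => by rw [map_mul, map_pow]

theorem pSpr2 : StSpringer → StOddBC → StBru → StSpr2 := by
  intro hS hO hB K L ι _ _ _ _ _ hodd a b hx
  obtain ⟨x, hx0, hxa, hxb⟩ := hx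
  have h2K : (2 : K) ≠ 0 := two_ne_zero
  obtain ⟨L', _, _, j, hL', hj⟩ := hO K (RatFunc K) L hodd
  set d : ι → RatFunc K := fun i => RatFunc.C (b i) + RatFunc.X * RatFunc.C (a i) with hd
  have hdL : ∀ i, algebraMap (RatFunc K) L' (d i) =
      j (algebraMap K L (b i)) + algebraMap (RatFunc K) L' RatFunc.X * j (algebraMap K L (a i)) := by
    intro i
    rw [hj, hj, hd]
    simp only [map_add, map_mul]
    rfl
  have hz : qf (fun i => algebraMap (RatFunc K) L' (d i)) (fun i => j (x i)) = 0 := by
    have e : qf (fun i => algebraMap (RatFunc K) L' (d i)) (fun i => j (x i)) =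
        qf (fun i => j (algebraMap K L (b i))) (fun i => j (x i)) +
        algebraMap (RatFunc K) L' RatFunc.X *
          qf (fun i => j (algebraMap K L (a i))) (fun i => j (x i)) := by
      unfold qf
      rw [Finset.mul_sum, ← Finset.sum_add_distrib]
      exact Finset.sum_congr rfl fun i _ => by beta_reduce; rw [hdL]; ring
    rw [e, qf_map_Spr2 j (fun i => algebraMap K L (b i)) x,
      qf_map_Spr2 j (fun i => algebraMap K L (a i)) x, hxa, hxb]
    simp
  let σ : Fin (Fintype.card ι) ≃ ι := (Fintype.equivFin ι).symm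
  have hiso : MIso ((Matrix.diagonal fun i => d (σ i)).map (algebraMap (RatFunc K) L')) := by
    refine ⟨fun i => j (x (σ i)), ?_, ?_⟩
    · intro h0
      apply hx0
      funext i
      have := congrFun h0 (σ.symm i)
      simp only [Equiv.apply_symm_apply, Pi.zero_apply] at this
      exact (map_eq_zero j).1 this
    · rw [Matrix.diagonal_map (map_zero _), qm_diag_Spr2]
      have := qf_equiv_Spr2 σ (fun i => algebraMap (RatFunc K) L' (d i)) (fun i => j (x i))
      rw [hz] at this
      exact this
  obtain ⟨u, hu0, hu⟩ := hS (RatFunc K) L' _ _ hL' hiso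
  rw [qm_diag_Spr2] at hu
  have hna : ¬ Aniso d := by
    intro han
    apply hu0
    have h3 := han (fun i => u (σ.symm i)) (by
      have := qf_equiv_Spr2 σ d (fun i => u (σ.symm i))
      simp only [Equiv.symm_apply_apply] at this
      rw [← this]
      exact hu)
    funext i
    have := congrFun h3 (σ i)
    simpa using this
  rw [hd, hB K ι h2K a b] at hna
  push Not at hna
  obtain ⟨y, hya, hyb, hy0⟩ := hna
  exact ⟨y, hy0, hya, hyb⟩

end Pool.Agent.Helper68.RK
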