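import Pool.Agent.Helper68.RK.StR

/-!
# Project RK, module SUPR
-/

set_option autoImplicit false

open MvPolynomial

namespace Pool.Agent.Helper68.RK

open Pool.Agent.Helper44.RED Pool.Agent.Helper44.CMF

private theorem mult_mul_SupR {α : Type} [CommMonoidWithZero α] [UniqueFactorizationMonoid α] {π a b : α}
    (hπ : Prime π) (ha : a ≠ 0) (hb : b ≠ 0) :
    multiplicity π (a * b) = multiplicity π a + multiplicity π b :=
  multiplicity_mul hπ (FiniteMultiplicity.of_prime_left hπ (mul_ne_zero ha hb))

/-- if at most one of the four factors is divisible by `π` and the product is a square, then every factor has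
even multiplicity -/
private theorem four_SupR {α : Type} [CommMonoidWithZero α] [UniqueFactorizationMonoid α] {π g : α}
    (hπ : Prime π) (f : Fin 4 → α) (hf : ∀ i, f i ≠ 0) (hg : f 0 * f 1 * f 2 * f 3 = g * g)
    (hd : ∀ i j, i ≠ j → π ∣ f i → ¬ π ∣ f j) (i : Fin 4) : Even (multiplicity π (f i)) := by
  have hg0 : g ≠ 0 := by
    rintro rfl
    rw [mul_zero] at hg
    exact (mul_ne_zero (mul_ne_zero (mul_ne_zero (hf 0) (hf 1)) (hf 2)) (hf 3)) hg
  have h1 : multiplicity π (f 0) + multiplicity π (f 1) + multiplicity π (f 2) + multiplicity π (f 3) =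
      multiplicity π g + multiplicity π g := by
    rw [← mult_mul_SupR hπ hg0 hg0, ← hg, mult_mul_SupR hπ (mul_ne_zero (mul_ne_zero (hf 0) (hf 1)) (hf 2)) (hf 3),
      mult_mul_SupR hπ (mul_ne_zero (hf 0) (hf 1)) (hf 2), mult_mul_SupR hπ (hf 0) (hf 1)]
  by_cases hi : π ∣ f i
  · have hz : ∀ j, j ≠ i → multiplicity π (f j) = 0 := fun j hj =>
      multiplicity_eq_zero.2 (hd i j (Ne.symm hj) hi)
    have h2 : multiplicity π (f i) = multiplicity π g + multiplicity π g := by
      rw [← h1]
      fin_cases i
      · have a1 := hz 1 (by decide)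
        have a2 := hz 2 (by decide)
        have a3 := hz 3 (by decide)
        simp [a1, a2, a3]
      · have a1 := hz 0 (by decide)
        have a2 := hz 2 (by decide)
        have a3 := hz 3 (by decide)
        simp [a1, a2, a3]
      · have a1 := hz 0 (by decide)
        have a2 := hz 1 (by decide)
        have a3 := hz 3 (by decide)
        simp [a1, a2, a3]
      · have a1 := hz 0 (by decide)
        have a2 := hz 1 (by decide)
        have a3 := hz 2 (by decide)
        simp [a1, a2, a3]
    exact ⟨_, h2⟩
  · rw [multiplicity_eq_zero.2 hi]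
    exact ⟨0, rfl⟩

theorem pSupR : StSqN → StSupR := by
  intro hSq k _ _ n s _ h2 p hp E hE P i
  classical
  have hinj := IsFractionRing.injective (AN n k) (KN n k)
  have hdiv : ∀ π : AN n k, Prime π → (∀ l, ¬ Associated π (p l)) → ∀ a b, a ≠ b → ¬ π ∣ E a - E b := by
    intro π hπ hπp a b hab h
    obtain ⟨l, hl⟩ := hE.2 a b hab π hπ h
    exact hπp l hl
  have hne0 : ∀ a b, a ≠ b → E a - E b ≠ 0 := fun a b hab =>
    sub_ne_zero.2 fun h => hab (hE.1 h)
  have hFa : dN p (fun _ => false) = 1 := by
    unfold dN
    simp
  cases P with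
  | zero =>
    refine ⟨fun _ => false, 1, ?_⟩
    rw [hFa]
    simp [dl]
  | some x y hxy =>
    have heq := (W_equation (rN E) x y).1 hxy.1
    by_cases hex : ∃ j, x = rN E j
    · obtain ⟨j, hj⟩ := hex
      by_cases hji : j = i
      · subst hji
        have h3 : dl (rN E) j (.some x y hxy) =
            algebraMap (AN n k) (KN n k) ((E j - E (j + 1)) * (E j - E (j + 2))) := by
          simp only [dl]
          rw [if_pos hj, map_mul, map_sub, map_sub]
          rfl
        have hj1 : j ≠ j + 1 := by fin_cases j <;> decide
        have hj2 : j ≠ j + 2 := by fin_cases j <;> decide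
        rw [h3]
        refine hSq k n s p hp _ (mul_ne_zero (hne0 _ _ hj1) (hne0 _ _ hj2)) ?_
        intro π hπ hπp
        rw [multiplicity_eq_zero.2 ?_]
        · exact ⟨0, rfl⟩
        · intro h
          rcases hπ.dvd_or_dvd h with h7 | h7
          · exact hdiv π hπ hπp _ _ hj1 h7
          · exact hdiv π hπ hπp _ _ hj2 h7
      · have hne : x ≠ rN E i := by
          rw [hj]
          intro h
          exact hji (hE.1 (hinj h))
        have h3 : dl (rN E) i (.some x y hxy) =
            algebraMap (AN n k) (KN n k) (E j - E i) := by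
          simp only [dl]
          rw [if_neg hne, hj, map_sub]
          rfl
        rw [h3]
        refine hSq k n s p hp _ (hne0 _ _ hji) ?_
        intro π hπ hπp
        rw [multiplicity_eq_zero.2 (hdiv π hπ hπp _ _ hji)]
        exact ⟨0, rfl⟩
    · push Not at hex
      have h3 : dl (rN E) i (.some x y hxy) = x - rN E i := by
        simp only [dl]
        rw [if_neg (hex i)]
      set A : AN n k := IsFractionRing.num (AN n k) x with hA
      set B : AN n k := (IsFractionRing.den (AN n k) x : AN n k) with hB
      have hB0 : B ≠ 0 := nonZeroDivisors.coe_ne_zero _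
      have hBK : algebraMap (AN n k) (KN n k) B ≠ 0 := fun h => hB0 (hinj (h.trans (map_zero _).symm))
      have hx : x * algebraMap (AN n k) (KN n k) B = algebraMap (AN n k) (KN n k) A := by
        have h5 := IsFractionRing.mk'_num_den' (AN n k) x
        exact ((div_eq_iff hBK).1 h5).symm
      have hrel : IsRelPrime A B := IsFractionRing.num_den_reduced (AN n k) x
      let N : Fin 3 → AN n k := fun j => A - E j * B
      have hN : ∀ j, algebraMap (AN n k) (KN n k) (N j) =
          (x - rN E j) * algebraMap (AN n k) (KN n k) B := by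
        intro j
        simp only [N]
        rw [map_sub, map_mul, ← hx]
        unfold rN
        ring
      have hN0 : ∀ j, N j ≠ 0 := by
        intro j h
        have h5 := hN j
        rw [h, map_zero] at h5
        rcases mul_eq_zero.1 h5.symm with h6 | h6
        · exact hex j (sub_eq_zero.1 h6)
        · exact hBK h6
      let f : Fin 4 → AN n k := ![N 0, N 1, N 2, B]
      have hf0 : ∀ j, f j ≠ 0 := by
        intro j
        fin_cases j
        · exact hN0 0
        · exact hN0 1
        · exact hN0 2
        · exact hB0
      -- the product is a square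
      obtain ⟨g, hg⟩ : ∃ g : AN n k, N 0 * N 1 * N 2 * B = g * g := by
        have h5 : (y * algebraMap (AN n k) (KN n k) B ^ 2) ^ 2 =
            algebraMap (AN n k) (KN n k) (N 0 * N 1 * N 2 * B) := by
          rw [map_mul, map_mul, map_mul, hN, hN, hN]
          linear_combination (algebraMap (AN n k) (KN n k) B) ^ 4 * heq
        obtain ⟨g, hg⟩ := IsIntegrallyClosed.exists_algebraMap_eq_of_isIntegral_pow (R := AN n k)
          (x := y * algebraMap (AN n k) (KN n k) B ^ 2) (n := 2) (by norm_num)
          (by rw [h5]; exact isIntegral_algebraMap)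
        refine ⟨g, hinj ?_⟩
        rw [← h5, map_mul, hg]
        ring
      have hev : ∀ π : AN n k, Prime π → (∀ j, ¬ Associated π (p j)) → ∀ j, Even (multiplicity π (f j)) := by
        intro π hπ hπp
        have hAB : ¬ (π ∣ A ∧ π ∣ B) := fun h => hπ.not_isUnit (hrel h.1 h.2)
        have hNB : ∀ j, π ∣ N j → ¬ π ∣ B := by
          intro j h1 h2
          refine hAB ⟨?_, h2⟩
          have h5 : A = N j + E j * B := by simp only [N]; ring
          rw [h5]
          exact dvd_add h1 (Dvd.dvd.mul_left h2 _)
        have hNN : ∀ j j', j ≠ j' → π ∣ N j → ¬ π ∣ N j' := by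
          intro j j' hjj h1 h2
          have h5 : N j - N j' = (E j' - E j) * B := by
            simp only [N]
            ring
          have h6 : π ∣ (E j' - E j) * B := h5 ▸ dvd_sub h1 h2
          rcases hπ.dvd_or_dvd h6 with h7 | h7
          · exact hdiv π hπ hπp _ _ (Ne.symm hjj) h7
          · exact hNB j h1 h7
        refine four_SupR (g := g) hπ f hf0 hg ?_
        intro a b hab
        fin_cases a <;> fin_cases b <;> first
          | exact absurd rfl hab
          | exact hNN _ _ (by decide)
          | exact hNB _
          | exact fun h1 h2 => hNB _ h2 h1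
      have hG0 : N i * B ≠ 0 := mul_ne_zero (hN0 i) hB0
      obtain ⟨r, z, hz⟩ := hSq k n s p hp (N i * B) hG0 (by
        intro π hπ hπp
        rw [mult_mul_SupR hπ (hN0 i) hB0]
        have h5 := hev π hπ hπp
        refine Even.add ?_ (h5 3)
        fin_cases i
        · exact h5 0
        · exact h5 1
        · exact h5 2)
      refine ⟨r, z / algebraMap (AN n k) (KN n k) B, ?_⟩
      rw [h3]
      rw [map_mul, hN] at hz
      rw [div_mul_div_comm, eq_div_iff (mul_ne_zero hBK hBK), ← hz]
      ring

end Pool.Agent.Helper68.RK
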