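import Pool.Agent.Helper68.RK.StF

set_option autoImplicit false

namespace Pool.Agent.Helper68.RK

open Pool.Agent.Helper44.RED Pool.Agent.Helper44.CMF

open Classical in
private theorem qf_pco {L J ι : Type} [Field L] [Fintype ι] [Fintype (J → ι)]
    (a b : J → ι → L) (j : J) (α : J → ι) (s : Bool) (z : (J → ι) → L) :
    qf (pco a b (j, α, s)) z =
      ∑ i, (if s = true then a j i else b j i) * z (Function.update α j i) ^ 2 := by
  unfold qf
  symm
  apply Fintype.sum_of_injective (fun i => Function.update α j i)
    (Function.update_injective α j)
  · intro β hβ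
    have : ¬ Function.update α j (β j) = β := fun h => hβ ⟨β j, h⟩
    unfold pco
    simp [this]
  · intro i
    unfold pco
    simp

theorem pTen : StTen := by
  intro L J ι _ _ _ _ a b
  classical
  have key : ∀ (j : J) (α : J → ι) (s : Bool) (z : (J → ι) → L),
      qf (pco a b (j, α, s)) z =
        ∑ i, (if s = true then a j i else b j i) * z (Function.update α j i) ^ 2 := by
    intro j α s z
    rw [qf_pco]
    refine Finset.sum_congr rfl fun i _ => ?_
    congr
    exact Subsingleton.elim _ _
  constructor
  · rintro ⟨z, hz, h⟩ j
    have : ∃ β, z β ≠ 0 := by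
      by_contra hcon
      push Not at hcon
      exact hz (funext hcon)
    obtain ⟨β, hβ⟩ := this
    refine ⟨fun i => z (Function.update β j i), ?_, ?_, ?_⟩
    · intro h0
      have h1 := congrFun h0 (β j)
      simp only [Function.update_eq_self, Pi.zero_apply] at h1
      exact hβ h1
    · have h1 := h (j, β, true)
      rw [key] at h1
      simpa [qf] using h1
    · have h1 := h (j, β, false)
      rw [key] at h1
      simpa [qf] using h1
  · intro h
    choose x hx ha hb using h
    have hne : ∀ j, ∃ i, x j i ≠ 0 := by
      intro j
      by_contra hcon
      push Not at hcon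
      exact hx j (funext hcon)
    choose β hβ using hne
    refine ⟨fun γ => ∏ j, x j (γ j), ?_, ?_⟩
    · intro h0
      have h1 := congrFun h0 β
      simp only [Pi.zero_apply] at h1
      exact Finset.prod_ne_zero_iff.2 (fun j _ => hβ j) h1
    · rintro ⟨j, α, s⟩
      rw [key]
      have h1 : ∀ i, (∏ j', x j' (Function.update α j i j')) =
          x j i * ∏ j' ∈ Finset.univ.erase j, x j' (α j') := by
        intro i
        rw [← Finset.mul_prod_erase _ _ (Finset.mem_univ j)]
        congr 1
        · simp
        · refine Finset.prod_congr rfl fun j' hj' => ?_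
          rw [Function.update_of_ne (Finset.ne_of_mem_erase hj')]
      have h2 : ∀ c : ι → L, ∑ i, c i * (∏ j', x j' (Function.update α j i j')) ^ 2 =
          (∏ j' ∈ Finset.univ.erase j, x j' (α j')) ^ 2 * ∑ i, c i * x j i ^ 2 := by
        intro c
        rw [Finset.mul_sum]
        refine Finset.sum_congr rfl fun i _ => ?_
        rw [h1]
        ring
      rw [h2]
      cases s with
      | true =>
        have h3 := ha j
        unfold qf at h3
        simp [h3]
      | false =>
        have h3 := hb j
        unfold qf at h3
        simp [h3]

end Pool.Agent.Helper68.RK
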