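import Pool.Agent.Helper68.RK.StR
import Pool.Agent.Helper44.CMF.Lib

/-!
# Project RK, module TOR: there are exactly four points with `P + P = 0`
-/

set_option autoImplicit false

open MvPolynomial

namespace Pool.Agent.Helper68.RK

open Pool.Agent.Helper44.RED Pool.Agent.Helper44.CMF

private theorem tor_ns {K : Type} [Field K] (h2 : (2 : K) ≠ 0) (e : Fin 3 → K)
    (he : Function.Injective e) (i : Fin 3) : (W e).Nonsingular (e i) 0 := by
  rw [W_nonsingular h2 e he]
  fin_cases i <;> simp

private theorem tor_some {K : Type} [Field K] [DecidableEq K] (h2 : (2 : K) ≠ 0) (e : Fin 3 → K)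
    {x y : K} (h : (W e).Nonsingular x y) :
    (WeierstrassCurve.Affine.Point.some x y h + WeierstrassCurve.Affine.Point.some x y h = 0) ↔
      y = 0 := by
  rw [← eq_neg_iff_add_eq_zero, WeierstrassCurve.Affine.Point.neg_some,
    WeierstrassCurve.Affine.Point.some.injEq, W_neg]
  constructor
  · rintro ⟨-, hy⟩
    have : 2 * y = 0 := by linear_combination hy
    exact (mul_eq_zero.1 this).resolve_left h2
  · rintro rfl
    simp

private def torF {K : Type} [Field K] [DecidableEq K] (h2 : (2 : K) ≠ 0) (e : Fin 3 → K)
    (he : Function.Injective e) : Option (Fin 3) → {P : (W e).Point // P + P = 0}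
  | none => ⟨0, add_zero 0⟩
  | some i => ⟨WeierstrassCurve.Affine.Point.some (e i) 0 (tor_ns h2 e he i),
      (tor_some h2 e (tor_ns h2 e he i)).2 rfl⟩

theorem pTor : StTor := by
  intro K _ _ h2 e he
  have hb : Function.Bijective (torF h2 e he) := by
    constructor
    · intro a b hab
      have h1 := congrArg Subtype.val hab
      cases a with
      | none =>
        cases b with
        | none => rfl
        | some j => exact absurd h1 (by simp [torF, WeierstrassCurve.Affine.Point.zero_def])
      | some i =>
        cases b with
        | none => exact absurd h1 (by simp [torF, WeierstrassCurve.Affine.Point.zero_def])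
        | some j =>
          simp only [torF, WeierstrassCurve.Affine.Point.some.injEq, and_true] at h1
          rw [he h1]
    · rintro ⟨P, hP⟩
      cases P with
      | zero => exact ⟨none, rfl⟩
      | some x y h =>
        have hy := (tor_some h2 e h).1 hP
        subst hy
        have hx := (W_nonsingular h2 e he x 0).1 h
        have h0 : (x - e 0) * (x - e 1) * (x - e 2) = 0 := by rw [← hx]; ring
        have hi : ∃ i, x = e i := by
          rcases mul_eq_zero.1 h0 with h1 | h1
          · rcases mul_eq_zero.1 h1 with h1 | h1
            · exact ⟨0, sub_eq_zero.1 h1⟩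
            · exact ⟨1, sub_eq_zero.1 h1⟩
          · exact ⟨2, sub_eq_zero.1 h1⟩
        obtain ⟨i, rfl⟩ := hi
        exact ⟨some i, rfl⟩
  rw [← Nat.card_congr (Equiv.ofBijective _ hb), Nat.card_eq_fintype_card]
  rfl

end Pool.Agent.Helper68.RK
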