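import Pool.Agent.Helper44.RED.All
import Pool.Agent.Helper44.RED.M_HomD
import Pool.Agent.Helper44.RED.M_Trans
import Pool.Agent.Helper44.CMF.M_SigB
import Pool.Agent.Helper44.CMF.M_FinB
import Pool.Agent.Helper44.CMF.M_EqM
import Pool.Agent.Helper44.CMF.M_HzM
import Pool.Agent.Helper44.CMF.M_Sca
import Pool.Agent.Helper44.CMF.M_Fam
import Pool.Agent.Helper44.CMF.M_FamT
import Pool.Agent.Helper44.CMF.M_Ort
import Pool.Agent.Helper44.CMF.M_Bru
import Pool.Agent.Helper44.CMF.M_Hom
import Pool.Agent.Helper44.CMF.M_Ker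
import Pool.Agent.Helper44.CMF.M_Prd
import Pool.Agent.Helper44.CMF.M_IndN
import Pool.Agent.Helper44.CMF.M_SqN
import Pool.Agent.Helper68.RK.M_SupR
import Pool.Agent.Helper68.RK.M_ClsR
import Pool.Agent.Helper68.RK.M_CovG
import Pool.Agent.Helper68.RK.M_Quo
import Pool.Agent.Helper68.RK.M_Rnk
import Pool.Agent.Helper68.RK.M_Tor
import Pool.Agent.Helper68.RK.M_Ten
import Pool.Agent.Helper68.RK.M_Spr2
import Pool.Agent.Helper68.RK.M_GenD
import Pool.Agent.Helper68.RK.M_Trk2
import Pool.Agent.Helper68.RK.M_AndN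
import Pool.Agent.Helper68.RK.M_RF

/-!
# Project RK: assembly
-/

set_option autoImplicit false

namespace Pool.Agent.Helper68.RK

open Pool.Agent.Helper44.RED Pool.Agent.Helper44.CMF

theorem aFamT : StFamT := pFamT (pFam pSigB (pFinB aXVar aXRat aXNot aPureIso) pEqM pHzM
  pSca (pHomD aPT) pTrans)

theorem aAndN : StAndN := pAndN aFamT pOrt pTrk2 pTen (pSpr2 aSpringer aOddBC pBru) (pGenD aAB)

theorem aClsR : StClsR := pClsR pIndN pHom pKer pPrd (pSupR pSqN)

theorem aRF : StRF := pRF aAndN pIndN pCovG aClsR pQuo pRnk pTor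

/-- the quotient `E(K) / 2 E(K)` is finite -/
theorem finQ (k : Type) [Field k] [IsAlgClosed k] [CharZero k] (n s : ℕ) [DecidableEq (KN n k)]
    (p : Fin s → AN n k) (hp : Irr p) (E : Fin 3 → AN n k) (hD : Disc p E) :
    Finite ((W (rN E)).Point ⧸ (nsmulAddMonoidHom (α := (W (rN E)).Point) 2).range) := by
  obtain ⟨c, -, hc2, hc3⟩ := aClsR k n s two_ne_zero p hp E hD
  have h0 : ∀ i j, c 0 i j = false := by
    intro i j
    have := hc2 0 0 i j
    rw [add_zero] at this
    rw [this]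
    cases c 0 i j <;> rfl
  have hneg : ∀ P i j, c (-P) i j = c P i j := by
    intro P i j
    have := hc2 P (-P) i j
    rw [add_neg_cancel, h0] at this
    cases h1 : c P i j <;> cases h2 : c (-P) i j <;> simp [h1, h2] at this ⊢
  refine Finite.of_injective (β := Fin 2 → Fin s → Bool)
    (fun x => c (Quotient.out x)) ?_
  intro x y hxy
  have hxy' : c (Quotient.out x) = c (Quotient.out y) := hxy
  have h1 : ∀ i j, c (-(Quotient.out x) + Quotient.out y) i j = false := by
    intro i j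
    rw [hc2, hneg, hxy']
    cases c (Quotient.out y) i j <;> rfl
  obtain ⟨Q, hQ⟩ := hc3 _ h1
  have h2 : -(Quotient.out x) + Quotient.out y ∈
      (nsmulAddMonoidHom (α := (W (rN E)).Point) 2).range :=
    ⟨Q, by rw [hQ]; simp [two_nsmul]⟩
  have h3 := QuotientAddGroup.eq.2 h2
  rw [QuotientAddGroup.out_eq', QuotientAddGroup.out_eq'] at h3
  exact h3

end Pool.Agent.Helper68.RK
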