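import Pool.Agent.Helper68.RK.StF

/-!
# Project RK, part F: module AndN
-/

set_option autoImplicit false

open MvPolynomial

namespace Pool.Agent.Helper68.RK

open Pool.Agent.Helper44.RED Pool.Agent.Helper44.CMF

private lemma pco_map_AndN {R S J ι : Type} [CommRing R] [CommRing S] (f : R →+* S)
    (a b : J → ι → R) (e : PIx J ι) (β : J → ι) :
    f (pco a b e β) = pco (fun j i => f (a j i)) (fun j i => f (b j i)) e β := by
  unfold pco
  split_ifs <;> simp

/-- the family -/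
private noncomputable def eAndN {R Ξ J ι : Type} [CommRing R] [Fintype (PIx J ι)] {n : ℕ}
    (a b : Ξ → J → ι → MvPolynomial (Fin n) R) (p : Ξ × (J → ι)) :
    MvPolynomial ((Fin n ⊕ PIx J ι) ⊕ Ξ) R :=
  X (Sum.inr p.1) * ∑ e : PIx J ι, X (Sum.inl (Sum.inr e)) *
    rename (fun i => Sum.inl (Sum.inl i)) (pco (a p.1) (b p.1) e p.2)

private lemma map_eAndN {R k Ξ J ι : Type} [CommRing R] [CommRing k] [Fintype (PIx J ι)]
    (φ : R →+* k) {n : ℕ} (a b : Ξ → J → ι → MvPolynomial (Fin n) R) (p : Ξ × (J → ι)) :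
    map φ (eAndN a b p) =
      eAndN (fun ξ j i => map φ (a ξ j i)) (fun ξ j i => map φ (b ξ j i)) p := by
  unfold eAndN
  rw [map_mul, map_sum, map_X]
  congr 1
  apply Finset.sum_congr rfl
  intro e _
  rw [map_mul, map_X, map_rename, pco_map_AndN (map φ)]

private lemma lin_ne_AndN {K E : Type} [Field K] [Fintype E] (c : E → K) (e0 : E)
    (h : c e0 ≠ 0) :
    (∑ e, algebraMap (MvPolynomial E K) (FractionRing (MvPolynomial E K)) (X e * C (c e))) ≠ 0 := by
  classical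
  rw [← map_sum, ne_eq, map_eq_zero_iff _ (IsFractionRing.injective (MvPolynomial E K)
    (FractionRing (MvPolynomial E K)))]
  intro h0
  apply h
  have h1 := congrArg (eval (fun e => if e = e0 then (1 : K) else 0)) h0
  rw [map_sum, map_zero] at h1
  simpa using h1

theorem pAndN : StFamT → StOrt → StTrk2 → StTen → StSpr2 → StGenD → StAndN := by
  intro hF hO hT hTen hS hG R Ξ J ι _ _ _ _ _ _ _ n a b
  classical
  obtain ⟨P, v, q, g, hP, hg⟩ := hF R (Ξ × (J → ι)) ((Fin n ⊕ PIx J ι) ⊕ Ξ) (eAndN a b)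
  refine ⟨v, q, g, ?_⟩
  intro k _ _ _ φ hab
  have hBig : Big k P := fun m hm _ => by
    exact_mod_cast hm.ne'
  obtain ⟨ψ, hψ1, hψ2, hψ3, hψ4⟩ := hT k Ξ (PIx J ι) n
  set T : Ξ → FractionRing (MvPolynomial ((Fin n ⊕ PIx J ι) ⊕ Ξ) k) := fun ξ : Ξ =>
    algebraMap (MvPolynomial ((Fin n ⊕ PIx J ι) ⊕ Ξ) k)
      (FractionRing (MvPolynomial ((Fin n ⊕ PIx J ι) ⊕ Ξ) k)) (X (Sum.inr ξ)) with hTdef
  set A : Ξ → J → ι → KN n k := fun ξ j i => algebraMap (AN n k) (KN n k) (map φ (a ξ j i)) with hA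
  set B : Ξ → J → ι → KN n k := fun ξ j i => algebraMap (AN n k) (KN n k) (map φ (b ξ j i)) with hB
  set qq : Ξ → (J → ι) → FractionRing (MvPolynomial (PIx J ι) (KN n k)) := fun ξ β =>
    ∑ e : PIx J ι, algebraMap (MvPolynomial (PIx J ι) (KN n k))
      (FractionRing (MvPolynomial (PIx J ι) (KN n k))) (X e * C (pco (A ξ) (B ξ) e β)) with hqq
  have hval : ∀ p : Ξ × (J → ι), algebraMap (MvPolynomial ((Fin n ⊕ PIx J ι) ⊕ Ξ) k)
      (FractionRing (MvPolynomial ((Fin n ⊕ PIx J ι) ⊕ Ξ) k)) (map φ (eAndN a b p)) =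
      T p.1 * ψ (qq p.1 p.2) := by
    intro p
    rw [map_eAndN]
    unfold eAndN
    rw [map_mul, map_sum]
    congr 1
    rw [hqq]
    simp only
    rw [map_sum]
    apply Finset.sum_congr rfl
    intro e _
    rw [map_mul, map_mul, map_mul, hψ2]
    congr 1
    have h1 : pco (A p.1) (B p.1) e p.2 = algebraMap (AN n k) (KN n k)
        (pco (fun j i => map φ (a p.1 j i)) (fun j i => map φ (b p.1 j i)) e p.2) := by
      rw [pco_map_AndN (algebraMap (AN n k) (KN n k))]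
    rw [h1, hψ1]
  have hTne : ∀ ξ, T ξ ≠ 0 := fun ξ => by
    rw [hTdef]
    simp only [ne_eq]
    rw [map_eq_zero_iff _ (IsFractionRing.injective (MvPolynomial ((Fin n ⊕ PIx J ι) ⊕ Ξ) k)
      (FractionRing (MvPolynomial ((Fin n ⊕ PIx J ι) ⊕ Ξ) k)))]
    exact X_ne_zero _
  have hαβ : ∀ (p : AN n k), p ≠ 0 → algebraMap (AN n k) (KN n k) p ≠ 0 := fun p hp h =>
    hp ((map_eq_zero_iff _ (IsFractionRing.injective (AN n k) (KN n k))).1 h)
  have hqne : ∀ p : Ξ × (J → ι), qq p.1 p.2 ≠ 0 := by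
    intro p
    have j0 : J := Classical.arbitrary J
    rcases hab p.1 j0 (p.2 j0) with h | h
    · apply lin_ne_AndN _ (j0, p.2, true)
      have h1 : pco (A p.1) (B p.1) (j0, p.2, true) p.2 = A p.1 j0 (p.2 j0) := by
        unfold pco
        rw [if_pos (by simp), if_pos rfl]
      rw [h1]
      exact hαβ _ h
    · apply lin_ne_AndN _ (j0, p.2, false)
      have h1 : pco (A p.1) (B p.1) (j0, p.2, false) p.2 = B p.1 j0 (p.2 j0) := by
        unfold pco
        rw [if_pos (by simp), if_neg (by simp)]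
      rw [h1]
      exact hαβ _ h
  have hgood := hg k hBig φ (by
    intro p h0
    have h1 := hval p
    rw [h0, map_zero] at h1
    have h3 : ψ (qq p.1 p.2) ≠ 0 := by
      rw [ne_eq, map_eq_zero_iff _ ψ.injective]
      exact hqne p
    exact (mul_ne_zero (hTne p.1) h3) h1.symm)
  have hfun : (fun p : Ξ × (J → ι) => algebraMap (MvPolynomial ((Fin n ⊕ PIx J ι) ⊕ Ξ) k)
      (FractionRing (MvPolynomial ((Fin n ⊕ PIx J ι) ⊕ Ξ) k)) (map φ (eAndN a b p))) =
      fun p : Ξ × (J → ι) => T p.1 * ψ (qq p.1 p.2) :=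
    funext hval
  haveI : CharZero (KN n k) :=
    charZero_of_injective_algebraMap (R := AN n k) (IsFractionRing.injective (AN n k) (KN n k))
  have hone : ∀ ξ, ¬ Aniso (qq ξ) ↔ ∀ j, ∃ x : ι → KN n k, x ≠ 0 ∧ qf (A ξ j) x = 0 ∧
      qf (B ξ j) x = 0 := by
    intro ξ
    rw [hqq]
    rw [hG (KN n k) (PIx J ι) (J → ι) (fun e β => pco (A ξ) (B ξ) e β)]
    constructor
    · rintro ⟨L, _, _, hodd, z, hz, hz'⟩ j
      have h1 := (hTen L J ι (fun j i => algebraMap (KN n k) L (A ξ j i))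
        (fun j i => algebraMap (KN n k) L (B ξ j i))).1 ⟨z, hz, fun e => by
          have h2 := hz' e
          have h3 : (fun β => algebraMap (KN n k) L (pco (A ξ) (B ξ) e β)) =
              pco (fun j i => algebraMap (KN n k) L (A ξ j i))
                (fun j i => algebraMap (KN n k) L (B ξ j i)) e := by
            funext β
            exact pco_map_AndN (algebraMap (KN n k) L) (A ξ) (B ξ) e β
          rw [h3] at h2
          exact h2⟩ j
      exact hS (KN n k) L ι hodd (A ξ j) (B ξ j) h1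
    · intro h
      obtain ⟨z, hz, hz'⟩ := (hTen (KN n k) J ι (A ξ) (B ξ)).2 h
      refine ⟨KN n k, inferInstance, Algebra.id _, by rw [Module.finrank_self]; exact odd_one, z, hz,
        fun e => ?_⟩
      exact hz' e
  have hiff : (¬ Aniso (fun p : Ξ × (J → ι) => algebraMap (MvPolynomial ((Fin n ⊕ PIx J ι) ⊕ Ξ) k)
      (FractionRing (MvPolynomial ((Fin n ⊕ PIx J ι) ⊕ Ξ) k)) (map φ (eAndN a b p)))) ↔
      (∃ ξ, ∀ j, ∃ x : ι → KN n k, x ≠ 0 ∧
        qf (fun i => algebraMap (AN n k) (KN n k) (map φ (a ξ j i))) x = 0 ∧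
        qf (fun i => algebraMap (AN n k) (KN n k) (map φ (b ξ j i))) x = 0) := by
    rw [hfun, hO (FractionRing (MvPolynomial (PIx J ι) (KN n k))) _ Ξ (J → ι) ψ T hψ3 hψ4 qq]
    rw [not_forall]
    exact exists_congr fun ξ => hone ξ
  exact ⟨hgood.1, hgood.2.1.trans hiff, hgood.2.2.trans hiff⟩

end Pool.Agent.Helper68.RK
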