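import Pool.Agent.Helper68.RK.StR

/-!
# Project RK: module RK (final assembly), by helper17
-/

set_option autoImplicit false

open MvPolynomial

namespace Pool.Agent.Helper68.RK

open Pool.Agent.Helper44.RED Pool.Agent.Helper44.CMF

/-- the polynomial `d_i` over `R` -/
private noncomputable def dp_RK {R : Type} [CommRing R] {n s : ℕ} (p : Fin s → MvPolynomial (Fin n) R)
    (r : Fin s → Bool) : MvPolynomial (Fin n) R := ∏ j, if r j then p j else 1

private theorem map_dp_RK {R k : Type} [CommRing R] [Field k] (φ : R →+* k) {n s : ℕ}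
    (p : Fin s → MvPolynomial (Fin n) R) (r : Fin s → Bool) :
    algebraMap (AN n k) (KN n k) (map φ (dp_RK p r)) = dN (fun j => map φ (p j)) r := by
  unfold dp_RK dN
  rw [map_prod, map_prod]
  refine Finset.prod_congr rfl fun j _ => ?_
  split_ifs
  · rfl
  · rw [map_one, map_one]

private theorem dN_ne_RK {n s : ℕ} {k : Type} [Field k] {p : Fin s → AN n k} (hp : Irr p)
    (r : Fin s → Bool) : dN p r ≠ 0 := by
  unfold dN
  refine Finset.prod_ne_zero_iff.2 fun j _ => ?_
  split_ifs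
  · intro h
    exact (hp.1 j).ne_zero ((IsFractionRing.injective (AN n k) (KN n k)) (by rw [h, map_zero]))
  · exact one_ne_zero

private theorem sq_RK (hInd : StIndN) {n s : ℕ} {k : Type} [Field k] {p : Fin s → AN n k} (hp : Irr p)
    (M : Fin 2 → Fin s → Bool) :
    IsSquare (dN p (M3 M 0) * dN p (M3 M 1) * dN p (M3 M 2)) := by
  have h1 : dN p (fun _ => false) = 1 := by simp [dN]
  have h2 := (hInd k n s p hp (M3 M 0) (M3 M 1) (M3 M 2) (fun _ => false)).2 (by
    intro j
    simp only [M3, Matrix.cons_val_zero, Matrix.cons_val_one, Matrix.cons_val]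
    cases M 0 j <;> cases M 1 j <;> rfl)
  rwa [h1, mul_one] at h2

private theorem good_RK (hInd : StIndN) (hCov : StCovG) {R : Type} [CommRing R] {n s : ℕ}
    (p : Fin s → MvPolynomial (Fin n) R) (E : Fin 3 → MvPolynomial (Fin n) R)
    (M : Fin 2 → Fin s → Bool) {v q : ℕ} (g : Fin q → MvPolynomial (Fin v) R)
    {k : Type} [Field k] [IsAlgClosed k] [DecidableEq (KN n k)] (h2k : (2 : k) ≠ 0) (φ : R →+* k)
    (hI : Irr (fun j => map φ (p j)))
    (hD : Disc (fun j => map φ (p j)) (fun i => map φ (E i)))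
    (h : (∀ (ξ : Unit) (i : Fin 4),
        map φ (((fun _ => ![dp_RK p (M3 M 0), -dp_RK p (M3 M 1), 0, -(E 1 - E 0)]) :
          Unit → Fin 4 → MvPolynomial (Fin n) R) ξ i) ≠ 0 ∨
        map φ (((fun _ => ![dp_RK p (M3 M 0), 0, -dp_RK p (M3 M 2), -(E 2 - E 0)]) :
          Unit → Fin 4 → MvPolynomial (Fin n) R) ξ i) ≠ 0) →
      Good φ g (∃ ξ : Unit, ∃ x : Fin 4 → KN n k, x ≠ 0 ∧
        qf (fun i => algebraMap (AN n k) (KN n k)
          (map φ (((fun _ => ![dp_RK p (M3 M 0), -dp_RK p (M3 M 1), 0, -(E 1 - E 0)]) :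
          Unit → Fin 4 → MvPolynomial (Fin n) R) ξ i))) x = 0 ∧
        qf (fun i => algebraMap (AN n k) (KN n k)
          (map φ (((fun _ => ![dp_RK p (M3 M 0), 0, -dp_RK p (M3 M 2), -(E 2 - E 0)]) :
          Unit → Fin 4 → MvPolynomial (Fin n) R) ξ i))) x = 0)) :
    Good φ g (∃ P, Cls (fun j => map φ (p j)) (fun i => map φ (E i)) P M) := by
  have hinj : Function.Injective (algebraMap (AN n k) (KN n k)) := IsFractionRing.injective _ _
  have h2K : (2 : KN n k) ≠ 0 := by
    intro h0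
    apply h2k
    have h1 : algebraMap (AN n k) (KN n k) (C (2 : k)) = 0 := by
      rw [map_ofNat, map_ofNat]; exact h0
    have h3 := hinj (h1.trans (map_zero _).symm)
    exact (C_eq_zero).1 h3
  have hdp : ∀ r, map φ (dp_RK p r) ≠ 0 := by
    intro r h0
    have h1 := map_dp_RK φ p r
    rw [h0, map_zero] at h1
    exact dN_ne_RK hI r h1.symm
  have hE10 : map φ (E 1) - map φ (E 0) ≠ 0 := by
    rw [sub_ne_zero]
    intro h0
    have := hD.1 h0
    exact absurd this (by decide)
  have h1 := h (by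
    intro ξ i
    fin_cases i
    · left
      simpa using hdp (M3 M 0)
    · left
      simpa using hdp (M3 M 1)
    · right
      simpa using hdp (M3 M 2)
    · left
      simp only [Fin.reduceFinMk, Matrix.cons_val, map_neg, map_sub]
      exact neg_ne_zero.2 hE10)
  have hr : Function.Injective (rN (fun i => map φ (E i))) := fun i j hij => hD.1 (hinj hij)
  have hcov := hCov (KN n k) h2K (rN (fun i => map φ (E i))) hr
    (fun i => dN (fun j => map φ (p j)) (M3 M i)) (fun i => dN_ne_RK hI _) (sq_RK hInd hI M)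
  have e1 : (fun i => algebraMap (AN n k) (KN n k)
      (map φ ((![dp_RK p (M3 M 0), -dp_RK p (M3 M 1), 0, -(E 1 - E 0)] :
        Fin 4 → MvPolynomial (Fin n) R) i))) =
      ![dN (fun j => map φ (p j)) (M3 M 0), -dN (fun j => map φ (p j)) (M3 M 1), 0,
        -(rN (fun i => map φ (E i)) 1 - rN (fun i => map φ (E i)) 0)] := by
    funext i
    fin_cases i
    · simp [map_dp_RK]
    · simp [map_dp_RK]
    · simp
    · simp [rN]
  have e2 : (fun i => algebraMap (AN n k) (KN n k)
      (map φ ((![dp_RK p (M3 M 0), 0, -dp_RK p (M3 M 2), -(E 2 - E 0)] :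
        Fin 4 → MvPolynomial (Fin n) R) i))) =
      ![dN (fun j => map φ (p j)) (M3 M 0), 0, -dN (fun j => map φ (p j)) (M3 M 2),
        -(rN (fun i => map φ (E i)) 2 - rN (fun i => map φ (E i)) 0)] := by
    funext i
    fin_cases i
    · simp [map_dp_RK]
    · simp
    · simp [map_dp_RK]
    · simp [rN]
  have key : (∃ ξ : Unit, ∃ x : Fin 4 → KN n k, x ≠ 0 ∧
        qf (fun i => algebraMap (AN n k) (KN n k)
          (map φ (((fun _ => ![dp_RK p (M3 M 0), -dp_RK p (M3 M 1), 0, -(E 1 - E 0)]) :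
          Unit → Fin 4 → MvPolynomial (Fin n) R) ξ i))) x = 0 ∧
        qf (fun i => algebraMap (AN n k) (KN n k)
          (map φ (((fun _ => ![dp_RK p (M3 M 0), 0, -dp_RK p (M3 M 2), -(E 2 - E 0)]) :
          Unit → Fin 4 → MvPolynomial (Fin n) R) ξ i))) x = 0) ↔
      ∃ P, Cls (fun j => map φ (p j)) (fun i => map φ (E i)) P M := by
    refine Iff.trans ⟨?_, ?_⟩ hcov
    · rintro ⟨ξ, x, hx0, hx1, hx2⟩
      refine ⟨x, hx0, ?_, ?_⟩
      · rw [← e1]; exact hx1
      · rw [← e2]; exact hx2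
    · rintro ⟨x, hx0, hx1, hx2⟩
      refine ⟨(), x, hx0, ?_, ?_⟩
      · show qf (fun i => algebraMap (AN n k) (KN n k)
          (map φ ((![dp_RK p (M3 M 0), -dp_RK p (M3 M 1), 0, -(E 1 - E 0)] :
            Fin 4 → MvPolynomial (Fin n) R) i))) x = 0
        rw [e1]; exact hx1
      · show qf (fun i => algebraMap (AN n k) (KN n k)
          (map φ ((![dp_RK p (M3 M 0), 0, -dp_RK p (M3 M 2), -(E 2 - E 0)] :
            Fin 4 → MvPolynomial (Fin n) R) i))) x = 0
        rw [e2]; exact hx2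
  rw [← propext key]
  exact h1

theorem pRK : StPairsN → StIndN → StCovG → StClsR → StQuo → StRnk → StTor → StRK := by
  intro hPairs hInd hCov hCls hQuo hRnk hTor R _ n s p E
  choose P v q g hP h using fun M : Fin 2 → Fin s → Bool => hPairs R Unit (Fin 4) n
    (fun _ => ![dp_RK p (M3 M 0), -dp_RK p (M3 M 1), 0, -(E 1 - E 0)])
    (fun _ => ![dp_RK p (M3 M 0), 0, -dp_RK p (M3 M 2), -(E 2 - E 0)])
  refine ⟨(∑ M, P M) + 3, v, q, g, by omega, ?_⟩
  intro k _ _ _ hB φ hI hD
  have h2k : (2 : k) ≠ 0 := hB.two (by omega)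
  have hG : ∀ M, Good φ (g M) (∃ Q, Cls (fun j => map φ (p j)) (fun i => map φ (E i)) Q M) := by
    intro M
    refine good_RK hInd hCov p E M (g M) h2k φ hI hD (h M k (hB.mono ?_) φ)
    have : P M ≤ ∑ M, P M := Finset.single_le_sum (fun _ _ => Nat.zero_le _) (Finset.mem_univ M)
    omega
  obtain ⟨c, hc1, hc2, hc3⟩ := hCls k n s h2k (fun j => map φ (p j)) hI (fun i => map φ (E i)) hD
  have hcard : Nat.card {M // Rational k (MvPolynomial (Fin (v M)) k ⧸ spI φ (g M))} =
      Nat.card ((W (rN fun i => map φ (E i))).Point ⧸ (nsmulAddMonoidHom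
        (α := (W (rN fun i => map φ (E i))).Point) 2).range) := by
    rw [← hQuo _ s c hc2 hc3]
    have he : ∀ M, Rational k (MvPolynomial (Fin (v M)) k ⧸ spI φ (g M)) ↔ ∃ Q, c Q = M := by
      intro M
      rw [(hG M).2.1]
      exact exists_congr fun Q => hc1 Q M
    exact Nat.card_congr (Equiv.subtypeEquivRight he)
  refine ⟨hG, hcard, fun hFG => ?_⟩
  have hinj : Function.Injective (algebraMap (AN n k) (KN n k)) := IsFractionRing.injective _ _
  have h2K : (2 : KN n k) ≠ 0 := by
    intro h0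
    apply h2k
    have h1 : algebraMap (AN n k) (KN n k) (C (2 : k)) = 0 := by
      rw [map_ofNat, map_ofNat]; exact h0
    have h3 := hinj (h1.trans (map_zero _).symm)
    exact (C_eq_zero).1 h3
  have hT := hTor (KN n k) h2K (rN fun i => map φ (E i)) (fun i j hij => hD.1 (hinj hij))
  rw [hcard]
  refine (hRnk _ hFG).trans ?_
  refine (congrArg (fun a => 2 ^ Module.finrank ℤ (W (rN fun i => map φ (E i))).Point * a) hT).trans ?_
  show 2 ^ Module.finrank ℤ (W (rN fun i => map φ (E i))).Point * 4 = _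
  rw [pow_add]
  norm_num

end Pool.Agent.Helper68.RK
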