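import Pool.Agent.Helper68.RK.StR

/-!
# Project RK, part F (MP_1dc56d): one variety for `N ≤ |E(K) / 2 E(K)|`

`k` algebraically closed of characteristic `0`, `K = k(t_1, …, t_n)`. For a finite family of finite lists of
pairs of diagonal quadratic forms over `K` there is ONE diagonal form over a larger rational function field
which is isotropic iff for some list all pairs have a common zero over `K` (product system, theorem of
Amer–Brumer type AB, SPRINGER, BRU, orthogonal sum ORT). Every statement has a complete proof in its docstring.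
-/

set_option autoImplicit false

open MvPolynomial

namespace Pool.Agent.Helper68.RK

open Pool.Agent.Helper44.RED Pool.Agent.Helper44.CMF

/-- the indices `(j, α, side)` of the equations of the product system -/
abbrev PIx (J ι : Type) : Type := J × (J → ι) × Bool

open Classical in
/-- The product system of the pairs `(a_j, b_j)`: unknowns `z_β`, `β : J → ι`; the equation with index
`(j, α, side)` is `∑_i c_i z_(α with α_j replaced by i)² = 0`, `c = a_j` or `b_j`; this is its coefficient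
at `z_β²`. -/
noncomputable def pco {R J ι : Type} [CommRing R] (a b : J → ι → R) (e : PIx J ι) (β : J → ι) : R :=
  if Function.update e.2.1 e.1 (β e.1) = β then
    (if e.2.2 = true then a e.1 (β e.1) else b e.1 (β e.1)) else 0

/-- TEN. The product system. PROOF. `qf (pco a b (j, α, side)) z = ∑_i c_i z (update α j i) ^ 2` (the `β` with
nonzero coefficient are the `update α j i`, `i : ι`, all different). (right to left) `z β = ∏_j x_j (β j)`:
`∑_i c_i ∏ = (∏_{j' ≠ j} x_{j'} (α j')²) ∑_i c_i x_j(i)² = 0`; `z ≠ 0`: choose `β j` with `x_j (β j) ≠ 0`.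
(left to right) `z β ≠ 0` for some `β`; `x i = z (update β j i)` is a common zero of `a j`, `b j`, nonzero at
`i = β j`. -/
def StTen : Prop := ∀ (L J ι : Type) [Field L] [Fintype J] [DecidableEq J] [Fintype ι]
  (a b : J → ι → L),
  (∃ z : (J → ι) → L, z ≠ 0 ∧ ∀ e : PIx J ι, qf (pco a b e) z = 0) ↔
    ∀ j, ∃ x : ι → L, x ≠ 0 ∧ qf (a j) x = 0 ∧ qf (b j) x = 0

/-- SPR2. Pairs of diagonal forms and odd extensions. PROOF. Let `x` be the common zero over `L`. ODDBC with
`K' = RatFunc K`: `L'/K'` odd and `j : L →+* L'`. The vector `j(x)` is a nontrivial zero over `L'` of the diagonal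
form `C b_i + X C a_i` over `K'`. SPRINGER (diagonal matrix; index set `Fin N`, reindex): it is isotropic over
`K'`. BRU over `K`. -/
def StSpr2 : Prop := ∀ (K L ι : Type) [Field K] [Field L] [CharZero K] [Algebra K L] [Fintype ι],
  Odd (Module.finrank K L) → ∀ a b : ι → K,
    (∃ x : ι → L, x ≠ 0 ∧ qf (fun i => algebraMap K L (a i)) x = 0 ∧
      qf (fun i => algebraMap K L (b i)) x = 0) →
    ∃ x : ι → K, x ≠ 0 ∧ qf a x = 0 ∧ qf b x = 0

/-- GEND. AB for a system of diagonal forms with arbitrary finite index sets. PROOF. Equivalences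
`Fin p ≃ Ε`, `Fin N ≃ Β`; `A i = Matrix.diagonal (c (σ i) ∘ τ)`; `KT K p = FractionRing (MvPolynomial (Fin p) K)` is
isomorphic to the field in the statement; `qm (diagonal d) u = qf d u`, `MIso (diagonal d) ↔ ¬ Aniso d`; `OddZ` of the
range of `A`. -/
def StGenD : Prop := ∀ (K Ε Β : Type) [Field K] [CharZero K] [Fintype Ε] [Fintype Β] (c : Ε → Β → K),
  ¬ Aniso (fun β => ∑ e, algebraMap (MvPolynomial Ε K) (FractionRing (MvPolynomial Ε K))
      (X e * C (c e β))) ↔
    ∃ (L : Type) (_ : Field L) (_ : Algebra K L), Odd (Module.finrank K L) ∧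
      ∃ z : Β → L, z ≠ 0 ∧ ∀ e, qf (fun β => algebraMap K L (c e β)) z = 0

/-- TRK2. The field `k(t, λ, T)` over `k(t)(λ)` (copy of TRKN, `Helper44/CMF/M_TrkN.lean`; there `λ` was one variable
and `RatFunc`). -/
def StTrk2 : Prop := ∀ (k Ξ Ε : Type) [Field k] [Finite Ξ] [Finite Ε] (n : ℕ),
  ∃ ψ : FractionRing (MvPolynomial Ε (KN n k)) →+*
      FractionRing (MvPolynomial ((Fin n ⊕ Ε) ⊕ Ξ) k),
    (∀ p : AN n k, ψ (algebraMap (MvPolynomial Ε (KN n k)) _ (C (algebraMap (AN n k) (KN n k) p))) =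
      algebraMap (MvPolynomial ((Fin n ⊕ Ε) ⊕ Ξ) k) _
        (rename (fun i => Sum.inl (Sum.inl i)) p)) ∧
    (∀ e : Ε, ψ (algebraMap (MvPolynomial Ε (KN n k)) _ (X e)) =
      algebraMap (MvPolynomial ((Fin n ⊕ Ε) ⊕ Ξ) k) _ (X (Sum.inl (Sum.inr e)))) ∧
    Indep ψ (fun ξ : Ξ => algebraMap (MvPolynomial ((Fin n ⊕ Ε) ⊕ Ξ) k)
      (FractionRing (MvPolynomial ((Fin n ⊕ Ε) ⊕ Ξ) k)) (X (Sum.inr ξ))) ∧
    GenBy ψ (Set.range fun ξ : Ξ => algebraMap (MvPolynomial ((Fin n ⊕ Ε) ⊕ Ξ) k)
      (FractionRing (MvPolynomial ((Fin n ⊕ Ε) ⊕ Ξ) k)) (X (Sum.inr ξ)))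

/-- ANDN. Families of lists of pairs of diagonal forms over `k(t_1, …, t_n)` (adapt
`Helper44/CMF/M_PairsN.lean`). PROOF. `Ε = PIx J ι`. FAMT for the index set `Ξ × (J → ι)`, the variables
`(Fin n ⊕ Ε) ⊕ Ξ` and `e (ξ, β) = X (inr ξ) * ∑_e X (inl (inr e)) * rename (inl ∘ inl) (pco (a ξ) (b ξ) e β)`;
`map φ` of it is the same with `map φ (a ξ j i)`, `map φ (b ξ j i)` (`pco` commutes with ring homomorphisms). By TRK2
`algebraMap (map φ (e (ξ, β))) = T_ξ * ψ (∑_e algebraMap (X e * C (c_e β)))` with `c = pco` of the images in `KN n k`;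
it is nonzero: for `β` take `j` (`J` nonempty) and a side with nonzero coefficient, `e = (j, β, side)`: the polynomial
`∑ X e * C (c_e β)` has a nonzero coefficient. ORT: anisotropic iff for all `ξ` the form
`(∑_e X e C (c_e β))_β` is; GEND over `K = KN n k` (characteristic `0`): isotropic iff the product system has a zero
over an odd extension `L` of `K`; TEN over `L` (`algebraMap (pco a b e β) = pco (algebraMap ∘ a) (algebraMap ∘ b) e β`)
and SPR2: iff for all `j` the pair has a zero over `K` (conversely `L = K`). -/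
def StAndN : Prop := ∀ (R Ξ J ι : Type) [CommRing R] [Fintype Ξ] [Nonempty Ξ] [Fintype J] [Nonempty J]
  [Fintype ι] [Nonempty ι] (n : ℕ) (a b : Ξ → J → ι → MvPolynomial (Fin n) R),
  ∃ (v q : ℕ) (g : Fin q → MvPolynomial (Fin v) R),
    ∀ (k : Type) [Field k] [IsAlgClosed k] [CharZero k] (φ : R →+* k),
      (∀ ξ j i, map φ (a ξ j i) ≠ 0 ∨ map φ (b ξ j i) ≠ 0) →
      Good φ g (∃ ξ, ∀ j, ∃ x : ι → KN n k, x ≠ 0 ∧
        qf (fun i => algebraMap (AN n k) (KN n k) (map φ (a ξ j i))) x = 0 ∧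
        qf (fun i => algebraMap (AN n k) (KN n k) (map φ (b ξ j i))) x = 0)

/-- RF. The final theorem (adapt `Helper68/RK/M_RK.lean`). PROOF. ANDN with
`Ξ = {f : Fin N → (Fin 2 → Fin s → Bool) // Function.Injective f}` (nonempty since `N ≤ 4 ^ s`), `J = Fin N`,
`ι = Fin 4`, `a f j = ![d₀, -d₁, 0, -(E₁ - E₀)]`, `b f j = ![d₀, 0, -d₂, -(E₂ - E₀)]`, `d_i = ∏_l if M3 (f j) i l then p l
else 1`. Over `k`: by COVG and INDN the condition is: there is an injective `f` such that for all `j` some point has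
the class `f j`, i.e. `N ≤ Nat.card {M // ∃ P, Cls P M}` (finite set), which is the order of `G ⧸ 2 G` by CLSR
and QUO. The last part: RNK and TOR: the order is `2 ^ (rank + 2)`. -/
def StRF : Prop := ∀ (R : Type) [CommRing R] (n s : ℕ) (p : Fin s → MvPolynomial (Fin n) R)
  (E : Fin 3 → MvPolynomial (Fin n) R) (N : ℕ), 1 ≤ N → N ≤ 4 ^ s →
  ∃ (v q : ℕ) (g : Fin q → MvPolynomial (Fin v) R),
    ∀ (k : Type) [Field k] [IsAlgClosed k] [CharZero k] [DecidableEq (KN n k)] (φ : R →+* k),
      Irr (fun j => map φ (p j)) → Disc (fun j => map φ (p j)) (fun i => map φ (E i)) →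
      Good φ g (N ≤ Nat.card ((W (rN fun i => map φ (E i))).Point ⧸ (nsmulAddMonoidHom
          (α := (W (rN fun i => map φ (E i))).Point) 2).range)) ∧
      (AddGroup.FG (W (rN fun i => map φ (E i))).Point → ∀ r : ℕ, N = 2 ^ (r + 2) →
        Good φ g (r ≤ Module.finrank ℤ (W (rN fun i => map φ (E i))).Point))

end Pool.Agent.Helper68.RK
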