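import Pool.Agent.Helper44.CMF.StN

/-!
# Project RK (MP_1dc56d): the number of rational members is the order of `E(K) / 2 E(K)`

`k` algebraically closed, `K = k(t_1, …, t_n)`, `E : y² = (x - E_0)(x - E_1)(x - E_2)` with `E_i` polynomials,
`p_1, …, p_s` pairwise non associated irreducible polynomials containing all prime factors of the `E_i - E_j`.
For `M = (M_0, M_1)`, `M_i : Fin s → Bool`, put `d_i = ∏ p_j^(M_i j)`, `M_2 = M_0 + M_1`. The covering
`x - E_i = d_i u_i²` is the intersection of two diagonal quadrics; by PAIRSN an explicit variety `X_M` is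
rational iff stably rational iff the covering has a point over `K`. So exactly `|E(K)/2E(K)|` of the `4^s`
varieties `X_M` are rational. Every statement has a complete proof in its docstring.
-/

set_option autoImplicit false

open MvPolynomial

namespace Pool.Agent.Helper68.RK

open Pool.Agent.Helper44.RED Pool.Agent.Helper44.CMF

/-- the three classes `(M_0, M_1, M_0 + M_1)` -/
def M3 {s : ℕ} (M : Fin 2 → Fin s → Bool) : Fin 3 → Fin s → Bool :=
  ![M 0, M 1, fun j => xor (M 0 j) (M 1 j)]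

/-- the roots in `k(t_1, …, t_n)` -/
noncomputable def rN {n : ℕ} {k : Type} [Field k] (E : Fin 3 → AN n k) : Fin 3 → KN n k :=
  fun i => algebraMap (AN n k) (KN n k) (E i)

/-- the roots are different and all prime factors of their differences are among the `p_j` -/
def Disc {n s : ℕ} {k : Type} [Field k] (p : Fin s → AN n k) (E : Fin 3 → AN n k) : Prop :=
  Function.Injective E ∧
    ∀ i j, i ≠ j → ∀ π : AN n k, Prime π → π ∣ E i - E j → ∃ l, Associated π (p l)

/-- the point `P` has the class `M`: `x(P) - E_i` is a square times `∏ p_j^(M_i j)` (corrected at the points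
of order two and at infinity by `dl`) -/
def Cls {n s : ℕ} {k : Type} [Field k] [DecidableEq (KN n k)] (p : Fin s → AN n k)
    (E : Fin 3 → AN n k) (P : (W (rN E)).Point) (M : Fin 2 → Fin s → Bool) : Prop :=
  ∀ i, IsSquare (dl (rN E) i P * dN p (M3 M i))

/-- COVG. The coverings for a curve with roots `e_0, e_1, e_2` over an arbitrary field (copy and adapt
`Helper44/CMF/M_CovK.lean` or `M_Cov.lean`). A vector is `(u, v, w, z)`; let `g² = d₀ d₁ d₂`.
PROOF. (right to left) `P = 0`: `dl = 1`, `d_i = g_i²`, vector `(1/g₀, 1/g₁, 1/g₂, 0)`. `P = (x, y)`, `x ≠ e_i` for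
all `i`: `(x - e_i) d_i = g_i²`, vector `(g₀/d₀, g₁/d₁, g₂/d₂, 1)`. `x = e₀`: `dl 1 = e₀ - e₁`, `dl 2 = e₀ - e₂`,
`(e₀ - e₁) d₁ = g₁²`, `(e₀ - e₂) d₂ = g₂²`: `(0, g₁/d₁, g₂/d₂, 1)`. `x = e₁`: `(g₀/d₀, 0, g₂/d₂, 1)`; `x = e₂`:
`(g₀/d₀, g₁/d₁, 0, 1)`. (left to right) `z ≠ 0`, WLOG `z = 1` (divide): `x = e₀ + d₀ u²`, `x - e₁ = d₁ v²`,
`x - e₂ = d₂ w²`, the product is `(g u v w)²`: point `(x, g u v w)` (`W_nonsingular`). If `u v w ≠ 0`:
`dl_i d_i = (d_i u_i)²`. If `u = 0`: `x = e₀`, `dl 0 = (e₀ - e₁)(e₀ - e₂) = d₁ v² d₂ w²`, `dl 0 * d₀ = (g v w)²`;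
`dl 1 = e₀ - e₁ = d₁ v²`, `dl 2 = d₂ w²`. Similarly `v = 0`, `w = 0` (note that at most one of `u, v, w` is zero, or:
`dl` of the other indices is always `d_i u_i²`). `z = 0`: `d₀ u² = d₁ v² = d₂ w²` is nonzero (otherwise the vector is
zero), so `d₀ d₁ = (d₁ v/u)²`, `d₀ d₂` is a square, hence all `d_i` are squares as `d₀ d₁ d₂` is: `P = 0`. -/
def StCovG : Prop := ∀ (K : Type) [Field K] [DecidableEq K], (2 : K) ≠ 0 → ∀ e : Fin 3 → K,
  Function.Injective e → ∀ d : Fin 3 → K, (∀ i, d i ≠ 0) → IsSquare (d 0 * d 1 * d 2) →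
    ((∃ x : Fin 4 → K, x ≠ 0 ∧ qf ![d 0, - d 1, 0, -(e 1 - e 0)] x = 0 ∧
      qf ![d 0, 0, - d 2, -(e 2 - e 0)] x = 0) ↔
      ∃ P : (W e).Point, ∀ i, IsSquare (dl e i P * d i))

/-- SUPR. Every point has a class, row by row (adapt `Helper44/CMF/M_SupN.lean` or `M_Sup.lean`).
PROOF. `P = 0`: `dl = 1`, `r = 0`. `x(P) = e_j` (`e_i = algebraMap (E i)`): `dl i` is `E_j - E_i` (`j ≠ i`) or
`(E_i - E_{i+1})(E_i - E_{i+2})` (`j = i`): a polynomial which is not divisible by any prime not associated to a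
`p_l` (multiplicity `0`): SQN. Otherwise `x = A/B` with `A, B` coprime (`IsFractionRing.num, den`), the product of
`A - E₀ B, A - E₁ B, A - E₂ B, B` is the square of `y B²`, hence of an element of `AN n k` (integrally closed), and
is nonzero. A prime `π` not associated to a `p_l` divides at most one of the four: if it divides `B` and `A - E_i B`
it divides `A` and `B`; if it divides `A - E_i B` and `A - E_j B` it divides `(E_i - E_j) B`, so `B`, and `A`. So each has
even multiplicity at `π`, and `dl i = (A - E_i B)/B` is, up to the square `B²`, `(A - E_i B) B`: SQN. -/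
def StSupR : Prop := ∀ (k : Type) [Field k] [IsAlgClosed k] (n s : ℕ) [DecidableEq (KN n k)],
  (2 : k) ≠ 0 → ∀ p : Fin s → AN n k, Irr p → ∀ E : Fin 3 → AN n k, Disc p E →
    ∀ (P : (W (rN E)).Point) (i : Fin 3), ∃ r : Fin s → Bool, IsSquare (dl (rN E) i P * dN p r)

/-- CLSR. The class map. PROOF. `c P i` := the row of SUPR for `i = 0, 1`. By PRD the product of the three `dl`
is a square, so `dl 2` is a square times `dN (c P 0) * dN (c P 1)`, which is a square times
`dN (c P 0 + c P 1)` (INDN with `m1 = c P 0`, `m2 = c P 1`, `m3` = their sum, `m4 = 0`). Uniqueness: INDN (`dl ≠ 0` by PRD).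
Additivity: HOM and INDN. `c P = 0`: all `dl i` are squares (`dN 0 = 1`), KER. (The class of `Q + Q` is `0` by
additivity.) -/
def StClsR : Prop := ∀ (k : Type) [Field k] [IsAlgClosed k] (n s : ℕ) [DecidableEq (KN n k)],
  (2 : k) ≠ 0 → ∀ p : Fin s → AN n k, Irr p → ∀ E : Fin 3 → AN n k, Disc p E →
    ∃ c : (W (rN E)).Point → Fin 2 → Fin s → Bool,
      (∀ P M, Cls p E P M ↔ c P = M) ∧
      (∀ P Q i j, c (P + Q) i j = xor (c P i j) (c Q i j)) ∧
      ∀ P, (∀ i j, c P i j = false) → ∃ Q, P = Q + Q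

/-- QUO. PROOF. `c P = c Q` iff `c (P - Q) = 0` iff `P - Q ∈ 2 G` (`c (-P) = c P` as `c 0 = 0`, `c (P + P) = 0`). So
`c` induces an injection of `G ⧸ 2 G` with image the range of `c`. -/
def StQuo : Prop := ∀ (G : Type) [AddCommGroup G] (s : ℕ) (c : G → Fin 2 → Fin s → Bool),
  (∀ P Q i j, c (P + Q) i j = xor (c P i j) (c Q i j)) →
  (∀ P, (∀ i j, c P i j = false) → ∃ Q, P = Q + Q) →
    Nat.card {M // ∃ P, c P = M} = Nat.card (G ⧸ (nsmulAddMonoidHom (α := G) 2).range)

/-- RNK. The order of `G / 2 G` for a finitely generated abelian group.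
PROOF. Structure theorem (`AddCommGroup.equiv_free_prod_directSum_zmod` or `Module.Finite` over `ℤ`,
`Submodule.torsion`): `G ≅ ℤ^r × T`, `T` finite, `G/2G ≅ (ℤ/2)^r × T/2T`, `|T/2T| = |T[2]|` (kernel and cokernel of
the endomorphism `2` of a finite group), `G[2] = T[2]`, `r = Module.finrank ℤ G`. -/
def StRnk : Prop := ∀ (G : Type) [AddCommGroup G], AddGroup.FG G →
  Nat.card (G ⧸ (nsmulAddMonoidHom (α := G) 2).range) =
    2 ^ Module.finrank ℤ G * Nat.card {P : G // P + P = 0}

/-- TOR. There are exactly four points with `P + P = 0`. PROOF. `0` and `(x, y)` with `y = -y`, that is `y = 0`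
(`W_neg`), so `x ∈ {e₀, e₁, e₂}`. -/
def StTor : Prop := ∀ (K : Type) [Field K] [DecidableEq K], (2 : K) ≠ 0 → ∀ e : Fin 3 → K,
  Function.Injective e → Nat.card {P : (W e).Point // P + P = 0} = 4

/-- RK. The final theorem. PROOF. For every `M` take PAIRSN with `Ξ = Unit`, `ι = Fin 4`,
`a = ![d₀, -d₁, 0, -(E₁ - E₀)]`, `b = ![d₀, 0, -d₂, -(E₂ - E₀)]`, `d_i = ∏_j if M3 M i j then p j else 1`; `P` = the sum
of the finitely many bounds. Over `k`: all indices have a nonzero entry (`map φ (E 1 - E 0) ≠ 0`), the condition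
of PAIRSN is the left side of COVG for `e = rN (map φ E)`, `d i = dN (map φ p) (M3 M i)`, whose product is a square
(INDN), so it is `∃ P, Cls P M`; CLSR, QUO, RNK, TOR. -/
def StRK : Prop := ∀ (R : Type) [CommRing R] (n s : ℕ) (p : Fin s → MvPolynomial (Fin n) R)
  (E : Fin 3 → MvPolynomial (Fin n) R),
  ∃ (B : ℕ) (v q : (Fin 2 → Fin s → Bool) → ℕ)
    (g : ∀ M : Fin 2 → Fin s → Bool, Fin (q M) → MvPolynomial (Fin (v M)) R), 3 ≤ B ∧
    ∀ (k : Type) [Field k] [IsAlgClosed k] [DecidableEq (KN n k)], Big k B → ∀ φ : R →+* k,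
      Irr (fun j => map φ (p j)) → Disc (fun j => map φ (p j)) (fun i => map φ (E i)) →
      (∀ M, Good φ (g M) (∃ P, Cls (fun j => map φ (p j)) (fun i => map φ (E i)) P M)) ∧
      Nat.card {M // Rational k (MvPolynomial (Fin (v M)) k ⧸ spI φ (g M))} =
        Nat.card ((W (rN fun i => map φ (E i))).Point ⧸ (nsmulAddMonoidHom
          (α := (W (rN fun i => map φ (E i))).Point) 2).range) ∧
      (AddGroup.FG (W (rN fun i => map φ (E i))).Point →
        Nat.card {M // Rational k (MvPolynomial (Fin (v M)) k ⧸ spI φ (g M))} =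
          2 ^ (Module.finrank ℤ (W (rN fun i => map φ (E i))).Point + 2))

end Pool.Agent.Helper68.RK
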